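import Pool.Agent.Lib.FW.SpecG
import Pool.Agent.Lib.MuZ.Tot
import Pool.Agent.Lib.MuZ.Inst

/-!
# FW, part G, module Ine: lifting of inertia
-/

open scoped Pointwise nonZeroDivisors

noncomputable section

namespace Pool.Agent.FW

open Pool.Agent.MuZ NumberField

/-- A closed subgroup realises the automorphisms of the residue ring which are trivial on the
invariants. -/
private theorem Ine_dec (H : Subgroup Gal(Om/ℚ)) (hH : IsClosed (H : Set Gal(Om/ℚ)))
    (P : Ideal ZZ) (hP : P.IsPrime) (σ : Gal(Om/ℚ)) (hσ : σ • P = P)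
    (h : ∀ x : ZZ, (∀ g ∈ H, g • x = x) → σ • x - x ∈ P) :
    ∃ τ ∈ H, τ • P = P ∧ ∀ x : ZZ, τ • x - σ • x ∈ P := by
  have hcomp : CompactSpace H := isCompact_iff_compactSpace.mp hH.isCompact
  let _ : TopologicalSpace ZZ := ⊥
  have hdisc : DiscreteTopology ZZ := ⟨rfl⟩
  have hcs : ContinuousSMul Gal(Om/ℚ) ZZ :=
    continuousSMul_iff_stabilizer_isOpen.mpr tot_stab
  let A := FixedPoints.subalgebra ℤ ZZ H
  have hcomm : SMulCommClass H A ZZ := by
    constructor
    intro g a b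
    show (g : Gal(Om/ℚ)) • ((a : ZZ) * b) = (a : ZZ) * ((g : Gal(Om/ℚ)) • b)
    rw [smul_mul']
    congr 1
    exact a.2 g
  have hinv : Algebra.IsInvariant A ZZ H := by
    constructor
    intro b hb
    exact ⟨⟨b, hb⟩, rfl⟩
  have hover : P.LiesOver (P.under A) := ⟨rfl⟩
  let e : (ZZ ⧸ P) ≃+* (ZZ ⧸ P) :=
    Ideal.quotientEquiv P P (MulSemiringAction.toRingEquiv Gal(Om/ℚ) ZZ σ) hσ.symm
  have he : ∀ x : ZZ, e (Ideal.Quotient.mk P x) = Ideal.Quotient.mk P (σ • x) := fun x => rfl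
  let e' : (ZZ ⧸ P) ≃ₐ[A ⧸ P.under A] (ZZ ⧸ P) := AlgEquiv.ofRingEquiv (f := e) (by
    intro a
    obtain ⟨a, rfl⟩ := Ideal.Quotient.mk_surjective a
    show e (Ideal.Quotient.mk P (a : ZZ)) = Ideal.Quotient.mk P (a : ZZ)
    rw [he, Ideal.Quotient.eq]
    exact h a fun g hg => a.2 ⟨g, hg⟩)
  obtain ⟨g, hg⟩ := Ideal.Quotient.stabilizerHom_surjective_of_profinite (A := A) (G := H)
    (P.under A) P e'
  refine ⟨(g : H), (g : H).2, ?_, ?_⟩
  · exact MulAction.mem_stabilizer_iff.1 g.2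
  · intro x
    rw [← Ideal.Quotient.eq]
    exact DFunLike.congr_fun hg (Ideal.Quotient.mk P x)

theorem tIne : S_Ine := by
  intro L L' hfin hLL P hP _ s hs hs' hsP
  have hcl : IsClosed (L'.fixingSubgroup : Set Gal(Om/ℚ)) :=
    InfiniteGalois.fixingSubgroup_isClosed L'
  have hle : ∀ τ ∈ L'.fixingSubgroup, τ ∈ L.fixingSubgroup := fun τ hτ =>
    IntermediateField.fixingSubgroup_antitone hLL hτ
  have hfix : ∀ x : Om, (∀ g ∈ L'.fixingSubgroup, g x = x) → x ∈ L' := by
    intro x hx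
    rw [← InfiniteGalois.fixedField_fixingSubgroup L']
    rintro ⟨g, hg⟩
    exact hx g hg
  have hfix' : ∀ g ∈ L'.fixingSubgroup, ∀ x ∈ L', g x = x := fun g hg x hx =>
    (IntermediateField.mem_fixingSubgroup_iff L' g).1 hg x hx
  -- `s` is onto on `L'`
  have hsinv : ∀ x ∈ L', s⁻¹ x ∈ L' := by
    let f : L' →ₗ[ℚ] L' :=
      { toFun := fun x => ⟨s x, hs' x x.2⟩
        map_add' := fun x y => Subtype.ext (map_add s (x : Om) (y : Om))
        map_smul' := fun c x => Subtype.ext (by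
          show s (c • (x : Om)) = c • s (x : Om)
          rw [Algebra.smul_def, Algebra.smul_def, map_mul, s.commutes]) }
    have hinj : Function.Injective f := by
      intro x y hxy
      exact Subtype.ext (s.injective (congrArg Subtype.val hxy))
    have hsur : Function.Surjective f := LinearMap.injective_iff_surjective.1 hinj
    intro x hx
    obtain ⟨y, hy⟩ := hsur ⟨x, hx⟩
    have h1 : s (y : Om) = x := congrArg Subtype.val hy
    have h2 : s⁻¹ x = (y : Om) := by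
      rw [← h1, ← AlgEquiv.mul_apply, inv_mul_cancel, AlgEquiv.one_apply]
    rw [h2]
    exact y.2
  have hc : ∀ (g : Gal(Om/ℚ)) (x : ZZ), ((g • x : ZZ) : Om) = g (x : Om) := fun g x => rfl
  -- the first adjustment
  obtain ⟨τ, hτ, hτP⟩ := tot_trans L'.fixingSubgroup hcl (s • P) P (hP.smul s) hP (by
    intro x hx
    have hxL : (x : Om) ∈ L' := hfix x fun g hg => by rw [← hc, hx g hg]
    rw [Ideal.mem_pointwise_smul_iff_inv_smul_mem]
    have h1 : s • (s⁻¹ • x) - s⁻¹ • x ∈ P := hsP (s⁻¹ • x) (by rw [hc]; exact hsinv _ hxL)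
    rw [smul_inv_smul] at h1
    constructor
    · intro h2
      have := P.add_mem h1 h2
      rwa [sub_add_cancel] at this
    · intro h2
      have := P.sub_mem h2 h1
      rwa [sub_sub_cancel] at this)
  -- the second adjustment
  obtain ⟨τ', hτ', hP', hx⟩ := Ine_dec L'.fixingSubgroup hcl P hP (τ * s)
    (by rw [mul_smul]; exact hτP.symm) (by
    intro x hx
    have hxL : (x : Om) ∈ L' := hfix x fun g hg => by rw [← hc, hx g hg]
    have h1 : (τ * s) • x = s • x := by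
      apply Subtype.ext
      rw [hc, hc, AlgEquiv.mul_apply]
      exact hfix' τ hτ _ (hs' _ hxL)
    rw [h1]
    exact hsP x hxL)
  refine ⟨τ'⁻¹ * (τ * s), ?_, ?_, ?_⟩
  · rw [AddSubgroup.mem_inertia]
    intro x
    have h1 : (τ'⁻¹ * (τ * s)) • x - x = - (τ'⁻¹ • (τ' • x - (τ * s) • x)) := by
      rw [smul_sub, inv_smul_smul, mul_smul τ'⁻¹]
      ring
    rw [h1]
    refine P.neg_mem ?_
    have h2 : τ'⁻¹ • (τ' • x - (τ * s) • x) ∈ τ'⁻¹ • P :=
      Ideal.smul_mem_pointwise_smul _ _ _ (hx x)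
    have h3 : τ'⁻¹ • P = P := by
      rw [inv_smul_eq_iff]
      exact hP'.symm
    rwa [h3] at h2
  · exact mul_mem (inv_mem (hle _ hτ')) (mul_mem (hle _ hτ) hs)
  · intro x hx
    rw [AlgEquiv.mul_apply, AlgEquiv.mul_apply, hfix' τ hτ _ (hs' x hx)]
    exact hfix' _ (inv_mem hτ') _ (hs' x hx)

end Pool.Agent.FW
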