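import Pool.Agent.Lib.FW.SpecG

/-!
# FW, G/Rm: ramification of Kummer extensions

A valuation of `Om` which dominates the localization of `ZZ` at `P` is used instead of the
fundamental identity: an integer `y = ∑ c_j β ^ j` of `L(β)` has the valuation `max_j |c_j β ^ j|`
(the values are different), so `|c_j β ^ j| < 1` for `j ≥ 1`, and `s y - y ∈ P`.
-/

open scoped Pointwise nonZeroDivisors

noncomputable section

namespace Pool.Agent.FW

open Pool.Agent.MuZ NumberField IsDedekindDomain

private theorem rm_val (P : Ideal ZZ) [hP : P.IsPrime] : ∃ A : ValuationSubring Om,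
    (∀ x : ZZ, A.valuation (x : Om) ≤ 1) ∧ ∀ x : ZZ, A.valuation (x : Om) < 1 ↔ x ∈ P := by
  have hg : ∀ y : P.primeCompl, IsUnit (algebraMap ZZ Om y) := by
    intro y
    refine IsUnit.mk0 _ fun h => y.2 ?_
    have h1 : (y : ZZ) = 0 := Subtype.ext h
    rw [h1]
    exact P.zero_mem
  let f : Localization.AtPrime P →+* Om := IsLocalization.lift (M := P.primeCompl) hg
  have hf : ∀ x : ZZ, f (algebraMap ZZ (Localization.AtPrime P) x) = (x : Om) :=
    fun x => IsLocalization.lift_eq _ _
  obtain ⟨A, h, hloc⟩ := IsLocalRing.exists_factor_valuationRing f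
  have hA : ∀ x : ZZ, (x : Om) ∈ A := fun x => by
    rw [← hf x]
    exact h _
  have hunit : ∀ x : ZZ, IsUnit (algebraMap ZZ (Localization.AtPrime P) x) ↔
      A.valuation (x : Om) = 1 := by
    intro x
    have h1 := A.valuation_eq_one_iff ⟨(x : Om), hA x⟩
    rw [← h1]
    have h2 : f.codRestrict A.toSubring h (algebraMap ZZ (Localization.AtPrime P) x) =
        ⟨(x : Om), hA x⟩ := Subtype.ext (hf x)
    constructor
    · intro hu
      have h3 := hu.map (f.codRestrict A.toSubring h)
      rw [h2] at h3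
      exact h3
    · intro hu
      refine hloc.map_nonunit _ ?_
      rw [h2]
      exact hu
  refine ⟨A, fun x => (A.valuation_le_one_iff _).2 (hA x), fun x => ?_⟩
  constructor
  · intro hx
    by_contra hxP
    have hu : IsUnit (algebraMap ZZ (Localization.AtPrime P) x) :=
      IsLocalization.map_units (Localization.AtPrime P) (⟨x, hxP⟩ : P.primeCompl)
    exact hx.ne ((hunit x).1 hu)
  · intro hxP
    refine lt_of_le_of_ne ((A.valuation_le_one_iff _).2 (hA x)) fun h1 => ?_
    have hu := (hunit x).2 h1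
    have h2 := (IsLocalization.AtPrime.isUnit_to_map_iff (Localization.AtPrime P) P x).1 hu
    exact h2 hxP

private theorem rm_count {R K : Type*} [CommRing R] [IsDedekindDomain R] [Field K] [Algebra R K]
    [IsFractionRing R K] (v : HeightOneSpectrum R) (x : K) (hx : x ≠ 0) :
    v.valuation K x =
      WithZero.exp (-(FractionalIdeal.count K v (FractionalIdeal.spanSingleton R⁰ x))) := by
  classical
  obtain ⟨r, s, hs, rfl⟩ := IsFractionRing.div_surjective (A := R) x
  have hs0 : s ≠ 0 := nonZeroDivisors.ne_zero hs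
  have hr0 : r ≠ 0 := by
    rintro rfl
    rw [map_zero, zero_div] at hx
    exact hx rfl
  have h1 : FractionalIdeal.spanSingleton R⁰ (algebraMap R K r / algebraMap R K s) =
      FractionalIdeal.spanSingleton R⁰ (algebraMap R K s)⁻¹ *
        ((Ideal.span {r} : Ideal R) : FractionalIdeal R⁰ K) := by
    rw [FractionalIdeal.coeIdeal_span_singleton, FractionalIdeal.spanSingleton_mul_spanSingleton,
      div_eq_inv_mul]
  rw [FractionalIdeal.count_well_defined K v (FractionalIdeal.spanSingleton_ne_zero_iff.2 hx) h1,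
    map_div₀, HeightOneSpectrum.valuation_of_algebraMap, HeightOneSpectrum.valuation_of_algebraMap,
    v.intValuation_if_neg hr0, v.intValuation_if_neg hs0, ← WithZero.exp_sub]
  congr 1
  ring

private theorem rm_rel (L : IntermediateField ℚ Om) [NumberField L] (P : Ideal ZZ)
    (A : ValuationSubring Om) (hA2 : ∀ x : ZZ, A.valuation (x : Om) ≤ 1)
    (hA : ∀ x : ZZ, A.valuation (x : Om) < 1 ↔ x ∈ P) (v : HeightOneSpectrum (𝓞 L))
    (hv : v.asIdeal = P.comap (iO L)) :
    ∃ γ : A.ValueGroup, 0 < γ ∧ γ < 1 ∧ ∀ x : L, x ≠ 0 → A.valuation (x : Om) =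
      γ ^ FractionalIdeal.count L v (FractionalIdeal.spanSingleton (𝓞 L)⁰ x) := by
  obtain ⟨π, hπ⟩ := v.valuation_exists_uniformizer' L
  have hint : ∀ x : 𝓞 L, A.valuation ((x : L) : Om) < 1 ↔ x ∈ v.asIdeal := by
    intro x
    rw [hv, Ideal.mem_comap, ← hA]
    rfl
  have hint1 : ∀ x : 𝓞 L, x ∉ v.asIdeal → A.valuation ((x : L) : Om) = 1 := by
    intro x hx
    refine le_antisymm (hA2 (iO L x)) (not_lt.1 fun h => hx ((hint x).1 h))
  have hπL : ((π : 𝓞 L) : L) ≠ 0 := by
    intro h
    have h1 : v.valuation L ((π : 𝓞 L) : L) = 0 := by rw [h, map_zero]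
    have h2 : v.valuation L ((π : 𝓞 L) : L) = WithZero.exp (-1) := hπ
    rw [h1] at h2
    exact WithZero.coe_ne_zero h2.symm
  have hπ0 : (((π : 𝓞 L) : L) : Om) ≠ 0 := fun h => hπL (Subtype.ext h)
  refine ⟨A.valuation (((π : 𝓞 L) : L) : Om), zero_lt_iff.2 ((Valuation.ne_zero_iff _).2 hπ0),
    ?_, fun x hx => ?_⟩
  · rw [hint, ← HeightOneSpectrum.valuation_lt_one_iff_mem (K := L)]
    refine lt_of_eq_of_lt hπ ?_
    rw [← WithZero.exp_zero, WithZero.exp_lt_exp]
    norm_num
  · set n := FractionalIdeal.count L v (FractionalIdeal.spanSingleton (𝓞 L)⁰ x) with hn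
    have h1 : v.valuation L (x * ((π : 𝓞 L) : L) ^ (-n)) = 1 := by
      have h2 : v.valuation L ((π : 𝓞 L) : L) = WithZero.exp (-1) := hπ
      rw [map_mul, map_zpow₀, h2, rm_count v x hx, ← hn, ← WithZero.exp_zsmul, ← WithZero.exp_add,
        ← WithZero.exp_zero]
      congr 1
      rw [smul_eq_mul]
      ring
    obtain ⟨a, d, hd⟩ := v.exists_primeCompl_mul_eq_of_integer _ h1.le
    have h3 : a ∉ v.asIdeal := by
      intro ha
      have h4 := (HeightOneSpectrum.valuation_lt_one_iff_mem (K := L) v a).2 ha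
      have h5 : v.valuation L (algebraMap (𝓞 L) L a) < 1 := h4
      rw [← hd, map_mul, h1, one_mul] at h5
      exact d.2 ((HeightOneSpectrum.valuation_lt_one_iff_mem (K := L) v d).1 h5)
    have h6 : A.valuation ((x * ((π : 𝓞 L) : L) ^ (-n) : L) : Om) = 1 := by
      have h7 : A.valuation ((x * ((π : 𝓞 L) : L) ^ (-n) * algebraMap (𝓞 L) L (d : 𝓞 L) : L) : Om) =
          A.valuation ((algebraMap (𝓞 L) L a : L) : Om) := by rw [hd]
      have h8 : A.valuation (((algebraMap (𝓞 L) L a : L)) : Om) = 1 := hint1 a h3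
      have h9 : A.valuation (((algebraMap (𝓞 L) L (d : 𝓞 L) : L)) : Om) = 1 := hint1 d d.2
      rw [h8] at h7
      rw [IntermediateField.coe_mul, map_mul, h9, mul_one] at h7
      exact h7
    rw [IntermediateField.coe_mul, map_mul] at h6
    have h10 : A.valuation ((((π : 𝓞 L) : L) ^ (-n) : L) : Om) =
        (A.valuation (((π : 𝓞 L) : L) : Om) ^ n)⁻¹ := by
      have h11 : ((((π : 𝓞 L) : L) ^ (-n) : L) : Om) = (((π : 𝓞 L) : L) : Om) ^ (-n) :=
        map_zpow₀ (algebraMap L Om) _ _
      rw [h11, map_zpow₀, zpow_neg]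
    rw [h10] at h6
    exact eq_of_mul_inv_eq_one h6

/-- The elements of `L(β)`. -/
private theorem rm_desc (L : IntermediateField ℚ Om) (p : ℕ) (hp : 0 < p) (β : Om) (b : L)
    (hb : (b : Om) = β ^ p) (x : Om) (hx : x ∈ L ⊔ IntermediateField.adjoin ℚ {β}) :
    ∃ c : ℕ → L, x = ∑ j ∈ Finset.range p, (c j : Om) * β ^ j := by
  have h1 : L ⊔ IntermediateField.adjoin ℚ {β} ≤
      (IntermediateField.adjoin L {β}).restrictScalars ℚ := by
    refine sup_le (fun y hy => ?_) (IntermediateField.adjoin_le_iff.2 ?_)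
    · exact (IntermediateField.adjoin L {β}).algebraMap_mem ⟨y, hy⟩
    · rintro y rfl
      exact IntermediateField.mem_adjoin_simple_self L y
  have h2 : x ∈ IntermediateField.adjoin L {β} := h1 hx
  have hmon : (Polynomial.X ^ p - Polynomial.C b : Polynomial L).Monic :=
    Polynomial.monic_X_pow_sub_C b hp.ne'
  have hroot : Polynomial.aeval β (Polynomial.X ^ p - Polynomial.C b : Polynomial L) = 0 := by
    rw [map_sub, map_pow, Polynomial.aeval_X, Polynomial.aeval_C, ← hb]
    exact sub_self _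
  have hint : IsIntegral L β := ⟨_, hmon, hroot⟩
  have h3 : x ∈ (IntermediateField.adjoin L {β}).toSubalgebra := h2
  rw [IntermediateField.adjoin_simple_toSubalgebra_of_isAlgebraic hint.isAlgebraic,
    Algebra.adjoin_singleton_eq_range_aeval] at h3
  obtain ⟨f, hf⟩ := h3
  set g := f %ₘ (Polynomial.X ^ p - Polynomial.C b : Polynomial L) with hg
  have h4 : Polynomial.aeval β g = x := by
    rw [← hf]
    have h5 := Polynomial.modByMonic_add_div f (Polynomial.X ^ p - Polynomial.C b : Polynomial L)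
    conv_rhs => rw [← h5]
    change _ = Polynomial.aeval β _
    rw [map_add, map_mul, hroot, zero_mul, add_zero]
  have h6 : g.natDegree < p := by
    have h7 := Polynomial.natDegree_modByMonic_lt f hmon (by
      intro h
      have h8 := congrArg Polynomial.natDegree h
      rw [Polynomial.natDegree_X_pow_sub_C, Polynomial.natDegree_one] at h8
      omega)
    rwa [Polynomial.natDegree_X_pow_sub_C] at h7
  refine ⟨fun j => g.coeff j, ?_⟩
  rw [← h4, Polynomial.aeval_eq_sum_range' h6]
  exact Finset.sum_congr rfl fun j _ => Algebra.smul_def _ _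

private theorem rm_int (z : Om) (p : ℕ) (hp : 0 < p) (hz : z ^ p = 1) : IsIntegral ℤ z :=
  IsIntegral.of_pow hp (by rw [hz]; exact isIntegral_one)

theorem tRm : S_Rm := by
  intro hIne p hp L _ ζ β hζ hζL hβ b hb P hP _ hin v hv
  have hp0 : 0 < p := hp.out.pos
  obtain ⟨A, hA2, hA⟩ := rm_val P
  obtain ⟨γ, hγ0, hγ1, hγ⟩ := rm_rel L P A hA2 hA v hv
  have hinj : Function.Injective fun n : ℤ => γ ^ n := zpow_right_injective₀ hγ0 hγ1.ne
  set n := FractionalIdeal.count L v (FractionalIdeal.spanSingleton (𝓞 L)⁰ b) with hn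
  by_contra hdvd
  have hb0 : b ≠ 0 := by
    rintro rfl
    exact pow_ne_zero p hβ (hb.symm.trans (ZeroMemClass.coe_zero L))
  have hwβ : A.valuation β ^ p = γ ^ n := by
    rw [← map_pow, ← hb, hγ b hb0]
  have hpp : Prime (p : ℤ) := Nat.prime_iff_prime_int.1 hp.out
  -- `β` is not in `L`
  have hβL : β ∉ L := by
    intro h
    have h1 : (⟨β, h⟩ : L) ≠ 0 := fun h2 => hβ (congrArg Subtype.val h2)
    have h3 : γ ^ (FractionalIdeal.count L v (FractionalIdeal.spanSingleton (𝓞 L)⁰ (⟨β, h⟩ : L)) *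
        (p : ℤ)) = γ ^ n := by
      rw [zpow_mul, ← hγ ⟨β, h⟩ h1, zpow_natCast]
      exact hwβ
    exact hdvd ⟨_, (mul_comm _ _).trans (hinj h3) |>.symm⟩
  -- the valuations of the terms
  have hval : ∀ (c : L) (j : ℕ), c ≠ 0 → A.valuation ((c : Om) * β ^ j) ^ p =
      γ ^ ((p : ℤ) * FractionalIdeal.count L v (FractionalIdeal.spanSingleton (𝓞 L)⁰ c) +
        (j : ℤ) * n) := by
    intro c j hc
    rw [map_mul, map_pow, mul_pow, hγ c hc, ← pow_mul, mul_comm j p, pow_mul, hwβ,
      zpow_add₀ hγ0.ne', mul_comm (p : ℤ), mul_comm (j : ℤ), zpow_mul, zpow_mul, zpow_natCast,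
      zpow_natCast]
  have hdist : ∀ (c c' : L) (i j : ℕ), c ≠ 0 → c' ≠ 0 → i < p → j < p → i ≠ j →
      A.valuation ((c : Om) * β ^ i) ≠ A.valuation ((c' : Om) * β ^ j) := by
    intro c c' i j hc hc' hi hj hij h
    have h1 : A.valuation ((c : Om) * β ^ i) ^ p = A.valuation ((c' : Om) * β ^ j) ^ p := by
      rw [h]
    rw [hval c i hc, hval c' j hc'] at h1
    have h2 := hinj h1
    have h3 : (p : ℤ) ∣ ((i : ℤ) - j) * n :=
      ⟨FractionalIdeal.count L v (FractionalIdeal.spanSingleton (𝓞 L)⁰ c') -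
        FractionalIdeal.count L v (FractionalIdeal.spanSingleton (𝓞 L)⁰ c), by linarith⟩
    have h4 : (p : ℤ) ∣ (i : ℤ) - j := (hpp.dvd_or_dvd h3).resolve_right hdvd
    have h5 : ((i : ℤ) - j) = 0 := by
      refine Int.eq_zero_of_abs_lt_dvd h4 ?_
      rw [abs_lt]
      constructor <;> omega
    omega
  have hle : ∀ c : ℕ → L, A.valuation (∑ j ∈ Finset.range p, (c j : Om) * β ^ j) ≤ 1 →
      ∀ j < p, A.valuation ((c j : Om) * β ^ j) ≤ 1 := by
    intro c hc j hj
    by_contra hcon
    obtain ⟨i, hi, hmax⟩ := Finset.exists_max_image (Finset.range p)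
      (fun j => A.valuation ((c j : Om) * β ^ j)) ⟨j, Finset.mem_range.2 hj⟩
    have h1 : 1 < A.valuation ((c i : Om) * β ^ i) :=
      lt_of_lt_of_le (not_le.1 hcon) (hmax j (Finset.mem_range.2 hj))
    have hci : c i ≠ 0 := by
      intro h
      rw [h, ZeroMemClass.coe_zero, zero_mul, map_zero] at h1
      exact absurd h1 (not_lt.2 zero_le_one)
    have h2 : A.valuation (∑ l ∈ (Finset.range p).erase i, (c l : Om) * β ^ l) <
        A.valuation ((c i : Om) * β ^ i) := by
      refine Valuation.map_sum_lt _ (ne_of_gt (lt_trans zero_lt_one h1)) fun l hl => ?_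
      obtain ⟨hli, hl⟩ := Finset.mem_erase.1 hl
      by_cases hcl : c l = 0
      · rw [hcl, ZeroMemClass.coe_zero, zero_mul, map_zero]
        exact lt_trans zero_lt_one h1
      · exact lt_of_le_of_ne (hmax l hl)
          (hdist _ _ _ _ hcl hci (Finset.mem_range.1 hl) (Finset.mem_range.1 hi) hli)
    rw [← Finset.add_sum_erase _ _ hi, Valuation.map_add_eq_of_lt_left _ h2] at hc
    exact absurd hc (not_le.2 h1)
  have hlt : ∀ c : ℕ → L, A.valuation (∑ j ∈ Finset.range p, (c j : Om) * β ^ j) ≤ 1 →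
      ∀ j < p, j ≠ 0 → A.valuation ((c j : Om) * β ^ j) < 1 := by
    intro c hc j hj hj0
    refine lt_of_le_of_ne (hle c hc j hj) fun h => ?_
    by_cases hcj : c j = 0
    · rw [hcj, ZeroMemClass.coe_zero, zero_mul, map_zero] at h
      exact zero_ne_one h
    · have h1 := hval (c j) j hcj
      rw [h, one_pow, ← zpow_zero γ] at h1
      have h2 := hinj h1
      have h3 : (p : ℤ) ∣ (j : ℤ) * n :=
        ⟨-FractionalIdeal.count L v (FractionalIdeal.spanSingleton (𝓞 L)⁰ (c j)), by linarith⟩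
      have h4 : (p : ℤ) ∣ (j : ℤ) := (hpp.dvd_or_dvd h3).resolve_right hdvd
      have h5 : p ∣ j := Int.natCast_dvd_natCast.1 h4
      exact absurd (Nat.le_of_dvd (Nat.pos_of_ne_zero hj0) h5) (not_le.2 hj)
  -- the automorphism
  obtain ⟨s, hs, hsβ⟩ : ∃ s ∈ L.fixingSubgroup, s β ≠ β := by
    by_contra h
    push Not at h
    apply hβL
    rw [← InfiniteGalois.fixedField_fixingSubgroup L, IntermediateField.mem_fixedField_iff]
    exact h
  have hsL : ∀ x ∈ L, s x = x := (IntermediateField.mem_fixingSubgroup_iff L s).1 hs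
  obtain ⟨η, hη, hηβ⟩ : ∃ η : Om, η ^ p = 1 ∧ s β = η * β := by
    refine ⟨s β / β, ?_, (div_mul_cancel₀ _ hβ).symm⟩
    rw [div_pow, ← map_pow, ← hb, hsL _ b.2, hb, div_self (pow_ne_zero _ hβ)]
  have hηL : η ∈ L := by
    obtain ⟨i, _, hi⟩ := hζ.eq_pow_of_pow_eq_one hη
    rw [← hi]
    exact pow_mem hζL i
  have hηint : IsIntegral ℤ η := rm_int η p hp0 hη
  have hβL' : β ∈ L ⊔ IntermediateField.adjoin ℚ {β} :=
    (le_sup_right : _ ≤ L ⊔ IntermediateField.adjoin ℚ {β})
      (IntermediateField.mem_adjoin_simple_self ℚ β)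
  have hLL' : L ≤ L ⊔ IntermediateField.adjoin ℚ {β} := le_sup_left
  have hfin : FiniteDimensional ℚ (L ⊔ IntermediateField.adjoin ℚ {β} : IntermediateField ℚ Om) := by
    have h1 : IsIntegral ℚ β := (Algebra.IsAlgebraic.isAlgebraic β).isIntegral
    have := IntermediateField.adjoin.finiteDimensional h1
    exact IntermediateField.finiteDimensional_sup L (IntermediateField.adjoin ℚ {β})
  have hPne : P ≠ ⊥ := by
    rintro rfl
    apply v.ne_bot
    rw [hv, eq_bot_iff]
    intro x hx
    have h1 : iO L x = 0 := hx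
    have h2 : ((x : L) : Om) = 0 := congrArg Subtype.val h1
    exact RingOfIntegers.ext (Subtype.ext h2)
  obtain ⟨σ, hσ1, hσ2, hσ3⟩ := hIne L (L ⊔ IntermediateField.adjoin ℚ {β}) hfin hLL' P hP hPne s hs
    (by
      intro x hx
      obtain ⟨c, rfl⟩ := rm_desc L p hp0 β b hb x hx
      rw [map_sum]
      refine sum_mem fun j _ => ?_
      rw [map_mul, map_pow, hsL _ (c j).2, hηβ]
      exact mul_mem (hLL' (c j).2) (pow_mem (mul_mem (hLL' hηL) hβL') j))
    (by
      intro y hy
      rw [← hA]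
      obtain ⟨c, hc⟩ := rm_desc L p hp0 β b hb _ hy
      have h1 := hA2 y
      rw [hc] at h1
      have h2 : ((s • y - y : ZZ) : Om) =
          ∑ j ∈ Finset.range p, ((c j : Om) * β ^ j) * (η ^ j - 1) := by
        change s (y : Om) - (y : Om) = _
        rw [hc, map_sum, ← Finset.sum_sub_distrib]
        refine Finset.sum_congr rfl fun j _ => ?_
        rw [map_mul, map_pow, hsL _ (c j).2, hηβ]
        ring
      rw [h2]
      refine Valuation.map_sum_lt _ one_ne_zero fun j hj => ?_
      by_cases hj0 : j = 0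
      · rw [hj0, pow_zero η, sub_self, mul_zero, map_zero]
        exact zero_lt_one
      · rw [map_mul]
        have h3 : A.valuation (η ^ j - 1) ≤ 1 :=
          hA2 ⟨η ^ j - 1, (hηint.pow j).sub isIntegral_one⟩
        calc A.valuation ((c j : Om) * β ^ j) * A.valuation (η ^ j - 1)
            ≤ A.valuation ((c j : Om) * β ^ j) * 1 := mul_le_mul_right h3 _
          _ = A.valuation ((c j : Om) * β ^ j) := mul_one _
          _ < 1 := hlt c h1 j (Finset.mem_range.1 hj) hj0)
  apply hsβ
  rw [← hσ3 β hβL']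
  exact hin σ hσ1 hσ2

end Pool.Agent.FW
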