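import Pool.Agent.Lib.FW.SpecG

/-! FW, part G: Kummer elements. -/

open scoped Pointwise

noncomputable section

namespace Pool.Agent.FW

open Pool.Agent.MuZ

private theorem Kum_pow {p : ℕ} [Fact p.Prime] {ζ : Om} (hζ : IsPrimitiveRoot ζ p)
    (a b : ZMod p) : ζ ^ (a + b).val = ζ ^ a.val * ζ ^ b.val := by
  rw [← pow_add, ZMod.val_add]
  conv_rhs => rw [← Nat.div_add_mod (a.val + b.val) p, pow_add, pow_mul, hζ.pow_eq_one,
    one_pow, one_mul]

/-- The embedding of the restriction. -/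
private def Kum_emb (E : IntermediateField ℚ Om) (h : Gal(E/ℚ)) : E →* Om where
  toFun x := (h x : Om)
  map_one' := by rw [map_one]; rfl
  map_mul' x y := by rw [map_mul]; rfl

private theorem Kum_inj (E : IntermediateField ℚ Om) : Function.Injective (Kum_emb E) := by
  intro h h' e
  apply AlgEquiv.ext
  intro x
  apply Subtype.ext
  exact DFunLike.congr_fun e x

private theorem Kum_main {p : ℕ} [Fact p.Prime] {ζ : Om} (hζ : IsPrimitiveRoot ζ p)
    (E : IntermediateField ℚ Om) [FiniteDimensional ℚ E] (H : Subgroup Gal(E/ℚ))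
    (c : Gal(E/ℚ) → ZMod p) :
    ∃ x : E, ∑ᶠ h : H, ζ ^ (-(c h)).val * ((h : Gal(E/ℚ)) x : Om) ≠ 0 := by
  classical
  have : Finite Gal(E/ℚ) := inferInstance
  let _ : Fintype H := Fintype.ofFinite H
  by_contra hn
  push Not at hn
  have h1 := (linearIndependent_monoidHom E Om).comp (fun h : H => Kum_emb E (h : Gal(E/ℚ)))
    ((Kum_inj E).comp Subtype.val_injective)
  rw [Fintype.linearIndependent_iff] at h1
  have h2 := h1 (fun h => ζ ^ (-(c h)).val) ?_ 1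
  · exact pow_ne_zero _ (hζ.ne_zero (Fact.out : p.Prime).ne_zero) h2
  · funext x
    have h3 := hn x
    rw [finsum_eq_sum_of_fintype] at h3
    rw [Finset.sum_apply]
    exact h3

theorem tKum : S_Kum := by
  classical
  intro p _ W ζ hζ hW g hg
  obtain ⟨-, g1, ⟨O, g2⟩, -⟩ := hg
  have hO : (O : Set Gal(Om/ℚ)) ∈ nhds (1 : Gal(Om/ℚ)) := O.mem_nhds_one
  obtain ⟨E, hE, hN', hEO⟩ := (krullTopology_mem_nhds_one_iff_of_normal ℚ Om _).1 hO
  have hN : Normal ℚ E := by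
    convert hN'
    exact Subsingleton.elim _ _
  let r : Gal(Om/ℚ) →* Gal(E/ℚ) := AlgEquiv.restrictNormalHom E
  have hr : ∀ (σ : Gal(Om/ℚ)) (x : E), ((r σ x : E) : Om) = σ x := fun σ x =>
    AlgEquiv.restrictNormalHom_apply E σ x
  let H : Subgroup Gal(E/ℚ) := W.map r
  let c : Gal(E/ℚ) → ZMod p := fun h => if hh : ∃ σ ∈ W, r σ = h then g hh.choose else 0
  have g_one : g 1 = 0 := by
    have := g1 1 W.one_mem 1 W.one_mem
    rw [mul_one] at this
    exact left_eq_add.1 this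
  have hc : ∀ σ ∈ W, c (r σ) = g σ := by
    intro σ hσ
    have hh : ∃ τ ∈ W, r τ = r σ := ⟨σ, hσ, rfl⟩
    change (if hh : ∃ τ ∈ W, r τ = r σ then g hh.choose else 0) = g σ
    rw [dif_pos hh]
    obtain ⟨h1, h2⟩ := hh.choose_spec
    set τ := hh.choose with hτ
    have h3 : σ⁻¹ * τ ∈ E.fixingSubgroup := by
      rw [IntermediateField.mem_fixingSubgroup_iff]
      intro x hx
      have h4 := congrArg (fun s : Gal(E/ℚ) => ((s ⟨x, hx⟩ : E) : Om)) h2
      simp only [hr] at h4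
      rw [AlgEquiv.mul_apply, h4, ← AlgEquiv.mul_apply, inv_mul_cancel, AlgEquiv.one_apply]
    have h4 : g (σ⁻¹ * τ) = 0 := g2 _ (W.mul_mem (W.inv_mem hσ) h1) (hEO h3)
    have h5 := g1 σ hσ (σ⁻¹ * τ) (W.mul_mem (W.inv_mem hσ) h1)
    rw [mul_inv_cancel_left, h4, add_zero] at h5
    exact h5
  obtain ⟨x, hx⟩ := Kum_main hζ E H c
  have : Finite Gal(E/ℚ) := inferInstance
  let _ : Fintype H := Fintype.ofFinite H
  rw [finsum_eq_sum_of_fintype] at hx
  refine ⟨_, hx, fun τ hτ => ?_⟩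
  rw [map_sum, Finset.mul_sum]
  let t : H := ⟨r τ, τ, hτ, rfl⟩
  refine Eq.trans ?_ (Equiv.sum_comp (Equiv.mulLeft t) (fun h : H =>
    ζ ^ (g τ).val * (ζ ^ (-(c h)).val * (((h : Gal(E/ℚ)) x : E) : Om))))
  refine Finset.sum_congr rfl fun h _ => ?_
  obtain ⟨h, σ, hσ, rfl⟩ := h
  change τ (ζ ^ (-(c (r σ))).val * ((r σ x : E) : Om)) =
    ζ ^ (g τ).val * (ζ ^ (-(c (r τ * r σ))).val * (((r τ * r σ) x : E) : Om))
  rw [← map_mul r, hc _ hσ, hc _ (W.mul_mem hτ hσ), g1 τ hτ σ hσ, hr, hr, map_mul, map_pow,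
    hW τ hτ, AlgEquiv.mul_apply, ← mul_assoc, ← Kum_pow hζ]
  congr 3
  ring

end Pool.Agent.FW
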