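import Pool.Agent.Lib.FW.SpecG

/-! FW, part G: a number field has only finitely many characters of order `p` unramified
outside `p`. -/

open scoped Pointwise nonZeroDivisors

noncomputable section

namespace Pool.Agent.FW

open Pool.Agent.MuZ NumberField

private theorem KF_int (L : IntermediateField ℚ Om) : (iO L).IsIntegral := by
  intro z
  have h : IsIntegral ℤ z := z.2.imp fun q hq => ⟨hq.1, by
    apply Subtype.ext
    have h2 : ((Polynomial.eval₂ (algebraMap ℤ ZZ) z q : ZZ) : Om) =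
        Polynomial.eval₂ (algebraMap ℤ Om) (z : Om) q := by
      exact (Polynomial.hom_eval₂ q (algebraMap ℤ ZZ) (algebraMap ZZ Om) z)
    exact h2.trans hq.2⟩
  have e : (algebraMap ℤ ZZ) = (iO L).comp (algebraMap ℤ (𝓞 L)) := Subsingleton.elim _ _
  have h' : (algebraMap ℤ ZZ).IsIntegralElem z := h
  rw [e] at h'
  exact RingHom.IsIntegralElem.of_comp h'

private theorem KF_inj (L : IntermediateField ℚ Om) : Function.Injective (iO L) := by
  intro x y h
  have h1 := congrArg (fun z : ZZ => (z : Om)) h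
  simp only [iO_coe] at h1
  exact RingOfIntegers.ext (Subtype.ext h1)

private theorem KF_over (L : IntermediateField ℚ Om) [NumberField L]
    (v : IsDedekindDomain.HeightOneSpectrum (𝓞 L)) :
    ∃ P : Ideal ZZ, P.IsPrime ∧ P ≠ ⊥ ∧ v.asIdeal = P.comap (iO L) := by
  algebraize [iO L]
  have h0 : Algebra.IsIntegral (𝓞 L) ZZ := ⟨fun x => KF_int L x⟩
  have h1 : RingHom.ker (algebraMap (𝓞 L) ZZ) ≤ v.asIdeal := by
    intro x hx
    rw [RingHom.mem_ker] at hx
    have : x = 0 := KF_inj L (by rw [map_zero]; exact hx)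
    rw [this]
    exact v.asIdeal.zero_mem
  have := v.isMaximal
  obtain ⟨Q, hQ, hQv⟩ := Ideal.exists_ideal_over_maximal_of_isIntegral v.asIdeal h1
  refine ⟨Q, hQ.isPrime, ?_, hQv.symm⟩
  rintro rfl
  apply v.ne_bot
  rw [← hQv, eq_bot_iff]
  intro x hx
  rw [Ideal.mem_comap, Ideal.mem_bot] at hx
  rw [Ideal.mem_bot]
  exact KF_inj L (by rw [map_zero]; exact hx)

private theorem KF_zeta (p : ℕ) [hp : Fact p.Prime] : ∃ ζ : Om, IsPrimitiveRoot ζ p := by
  have : NeZero ((p : ℕ) : Om) := ⟨Nat.cast_ne_zero.2 hp.out.ne_zero⟩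
  obtain ⟨z, hz⟩ := IsAlgClosed.exists_root (Polynomial.cyclotomic p Om)
    (by
      rw [Polynomial.degree_cyclotomic]
      exact_mod_cast (Nat.totient_pos.2 hp.out.pos).ne')
  exact ⟨z, Polynomial.isRoot_cyclotomic_iff.1 hz⟩

private theorem KF_main (hK : S_Kum) (hI : S_Ine) (hR : S_Rm) (hS : S_Sel) (p : ℕ)
    [hp : Fact p.Prime] (L : IntermediateField ℚ Om) [NumberField L] (ζ : Om)
    (hζ : IsPrimitiveRoot ζ p) (hζL : ζ ∈ L) : Finite (VV p (LocO p) L.fixingSubgroup) := by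
  obtain ⟨T, hT, hT'⟩ := hS p L
  have hpos : 0 < p := hp.out.pos
  have : NeZero p := ⟨hp.out.ne_zero⟩
  have hW : ∀ σ ∈ L.fixingSubgroup, ∀ x ∈ L, σ x = x := fun σ hσ x hx =>
    (IntermediateField.mem_fixingSubgroup_iff L σ).1 hσ x hx
  have hfix : ∀ x : Om, (∀ σ ∈ L.fixingSubgroup, σ x = x) → x ∈ L := by
    intro x hx
    rw [← InfiniteGalois.fixedField_fixingSubgroup L, IntermediateField.mem_fixedField_iff]
    exact hx
  have key : ∀ g : VV p (LocO p) L.fixingSubgroup, ∃ β : Om, β ≠ 0 ∧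
      (∀ σ ∈ L.fixingSubgroup, σ β = ζ ^ ((g : Gal(Om/ℚ) → ZMod p) σ).val * β) ∧
      ∃ t ∈ T, ∃ x : L, x ≠ 0 ∧ β ^ p = (t : Om) * (x : Om) ^ p := by
    rintro ⟨g, hg⟩
    obtain ⟨β, hβ, h1⟩ := hK p L.fixingSubgroup ζ hζ (fun σ hσ => hW σ hσ ζ hζL) g
      ⟨hg.1, hg.2.1, hg.2.2.1, fun Λ hΛ => absurd hΛ (Set.notMem_empty Λ)⟩
    refine ⟨β, hβ, h1, ?_⟩
    have hb : β ^ p ∈ L := by
      refine hfix _ fun σ hσ => ?_
      rw [map_pow, h1 σ hσ, mul_pow, ← pow_mul, mul_comm _ p, pow_mul, hζ.pow_eq_one, one_pow,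
        one_mul]
    obtain ⟨t, ht, x, hx, h2⟩ := hT' ⟨β ^ p, hb⟩
      (fun h => pow_ne_zero p hβ (congrArg Subtype.val h)) (by
        intro v hv
        obtain ⟨P, hP, hP0, hPv⟩ := KF_over L v
        have hpP : (p : ZZ) ∉ P := by
          intro h
          apply hv
          rw [hPv, Ideal.mem_comap, map_natCast]
          exact h
        refine hR hI p L ζ β hζ hζL hβ ⟨β ^ p, hb⟩ rfl P hP hpP ?_ v hPv
        intro σ hσ hσL
        rw [h1 σ hσL, hg.2.2.2 _ ⟨P, hP, hP0, hpP, rfl⟩ σ hσ hσL, ZMod.val_zero, pow_zero,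
          one_mul])
    refine ⟨t, ht, x, hx, ?_⟩
    have h3 := congrArg (fun y : L => (y : Om)) h2
    exact h3
  choose β hβ h1 t ht x hx h2 using key
  have hinj : Function.Injective (fun g : VV p (LocO p) L.fixingSubgroup =>
      (⟨t g, ht g⟩ : T)) := by
    intro g g' h
    have ht' : t g = t g' := congrArg Subtype.val h
    have hx0 : ∀ g, ((x g : L) : Om) ≠ 0 := fun g h => hx g (Subtype.ext h)
    have e1 : (β g / β g' * ((x g' : Om) / (x g : Om))) ^ p = 1 := by
      rw [mul_pow, div_pow, div_pow, h2 g, h2 g', ht']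
      have h3 : ((t g' : L) : Om) ≠ 0 := fun h => hT _ (ht g') (Subtype.ext h)
      have h4 := pow_ne_zero p (hx0 g)
      have h5 := pow_ne_zero p (hx0 g')
      field_simp
    obtain ⟨j, -, hj⟩ := hζ.eq_pow_of_pow_eq_one e1
    have hy : β g = ζ ^ j * ((x g : Om) / (x g' : Om)) * β g' := by
      rw [hj]
      have := hx0 g
      have := hx0 g'
      have := hβ g'
      field_simp
    have hyL : ζ ^ j * ((x g : Om) / (x g' : Om)) ∈ L :=
      L.mul_mem (pow_mem hζL j) (L.div_mem (x g).2 (x g').2)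
    apply Subtype.ext
    funext σ
    by_cases hσ : σ ∈ L.fixingSubgroup
    · have h3 := h1 g σ hσ
      have h4 := h1 g' σ hσ
      rw [hy, map_mul, hW σ hσ _ hyL, h4] at h3
      have h5 : ζ ^ ((g' : Gal(Om/ℚ) → ZMod p) σ).val = ζ ^ ((g : Gal(Om/ℚ) → ZMod p) σ).val := by
        have h6 : ζ ^ j * ((x g : Om) / (x g' : Om)) * β g' ≠ 0 := by
          rw [← hy]
          exact hβ g
        apply mul_right_cancel₀ h6
        rw [← h3]
        ring
      exact (ZMod.val_injective p (hζ.pow_inj (ZMod.val_lt _) (ZMod.val_lt _) h5)).symm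
    · rw [g.2.1 σ hσ, g'.2.1 σ hσ]
  exact Finite.of_injective _ hinj

theorem tKF : S_KF := by
  intro hK hI hR hS hRes p hp L hL
  obtain ⟨ζ, hζ⟩ := KF_zeta p
  have hfd : FiniteDimensional ℚ (IntermediateField.adjoin ℚ {ζ} : IntermediateField ℚ Om) :=
    IntermediateField.adjoin.finiteDimensional (Algebra.IsIntegral.isIntegral ζ)
  have hsup : FiniteDimensional ℚ (L ⊔ IntermediateField.adjoin ℚ {ζ} :
    IntermediateField ℚ Om) := IntermediateField.finiteDimensional_sup _ _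
  have : NumberField (L ⊔ IntermediateField.adjoin ℚ {ζ} : IntermediateField ℚ Om) := ⟨⟩
  have hfin := KF_main hK hI hR hS p (L ⊔ IntermediateField.adjoin ℚ {ζ}) ζ hζ
    ((le_sup_right : _ ≤ L ⊔ IntermediateField.adjoin ℚ {ζ})
      (IntermediateField.subset_adjoin ℚ {ζ} rfl))
  let O : OpenSubgroup Gal(Om/ℚ) :=
    ⟨(IntermediateField.adjoin ℚ {ζ} : IntermediateField ℚ Om).fixingSubgroup,
      IntermediateField.fixingSubgroup_isOpen _⟩
  have hsg := IntermediateField.fixingSubgroup_sup (K := L)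
    (L := IntermediateField.adjoin ℚ {ζ})
  refine hRes Gal(Om/ℚ) p (LocO p) _ L.fixingSubgroup O ?_ ?_ hfin
  · rw [hsg]
    exact inf_le_left
  · rw [hsg]

end Pool.Agent.FW
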