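import Pool.Agent.Lib.FW.SpecG

/-!
# FW, part G, module Sel: finiteness of the Selmer group
-/

open scoped Pointwise nonZeroDivisors

noncomputable section

namespace Pool.Agent.FW

open Pool.Agent.MuZ NumberField

open IsDedekindDomain

section Frac

variable {K : Type} [Field K] [NumberField K]

private theorem Sel_ne (v : HeightOneSpectrum (𝓞 K)) :
    (v.asIdeal : FractionalIdeal (𝓞 K)⁰ K) ≠ 0 :=
  FractionalIdeal.coeIdeal_ne_zero.2 v.ne_bot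

private theorem Sel_supp (I : FractionalIdeal (𝓞 K)⁰ K) (h : ℤ → ℤ) (h0 : h 0 = 0) :
    Function.HasFiniteMulSupport fun v : HeightOneSpectrum (𝓞 K) =>
      (v.asIdeal : FractionalIdeal (𝓞 K)⁰ K) ^ h (FractionalIdeal.count K v I) := by
  have h1 : {v : HeightOneSpectrum (𝓞 K) | ¬ FractionalIdeal.count K v I = 0}.Finite :=
    FractionalIdeal.finite_factors I
  refine h1.subset ?_
  intro v hv hc
  apply hv
  simp only [hc, h0, zpow_zero]

/-- factorisation of the ideal -/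
private theorem Sel_fac (p : ℕ) (S : Finset (HeightOneSpectrum (𝓞 K)))
    (I : FractionalIdeal (𝓞 K)⁰ K) (hI : I ≠ 0)
    (hS : ∀ v, v ∉ S → (p : ℤ) ∣ FractionalIdeal.count K v I) :
    ∃ B : FractionalIdeal (𝓞 K)⁰ K, I = B ^ p * ∏ v ∈ S,
      (v.asIdeal : FractionalIdeal (𝓞 K)⁰ K) ^ (FractionalIdeal.count K v I % (p : ℤ)) := by
  refine ⟨∏ᶠ v : HeightOneSpectrum (𝓞 K),
    (v.asIdeal : FractionalIdeal (𝓞 K)⁰ K) ^ (FractionalIdeal.count K v I / (p : ℤ)), ?_⟩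
  have f1 := Sel_supp I (fun n => n / (p : ℤ)) (by simp)
  have f2 := Sel_supp I (fun n => n % (p : ℤ)) (by simp)
  have f3 := Sel_supp I (fun n => (p : ℤ) * (n / (p : ℤ))) (by simp)
  rw [finprod_pow f1]
  have h1 : ∀ v : HeightOneSpectrum (𝓞 K), ((v.asIdeal : FractionalIdeal (𝓞 K)⁰ K) ^
      (FractionalIdeal.count K v I / (p : ℤ))) ^ p = (v.asIdeal : FractionalIdeal (𝓞 K)⁰ K) ^
      ((p : ℤ) * (FractionalIdeal.count K v I / (p : ℤ))) := by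
    intro v
    rw [← zpow_natCast, ← zpow_mul, mul_comm]
  simp only [h1]
  rw [← finprod_eq_prod_of_mulSupport_subset (fun v : HeightOneSpectrum (𝓞 K) =>
    (v.asIdeal : FractionalIdeal (𝓞 K)⁰ K) ^ (FractionalIdeal.count K v I % (p : ℤ)))
    (s := S) (by
      intro v hv
      by_contra hvS
      apply hv
      simp only [Int.emod_eq_zero_of_dvd (hS v hvS), zpow_zero]),
    ← finprod_mul_distrib f3 f2]
  conv_lhs => rw [← FractionalIdeal.finprod_heightOneSpectrum_factorization' K hI]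
  refine finprod_congr fun v => ?_
  rw [← zpow_add₀ (Sel_ne v), Int.mul_ediv_add_emod]

private theorem Sel_one (b : Kˣ) (h : toPrincipalIdeal (𝓞 K) K b = 1) :
    ∃ e : (𝓞 K)ˣ, ((e : 𝓞 K) : K) = b := by
  have key : ∀ c : Kˣ, toPrincipalIdeal (𝓞 K) K c = 1 → ∃ x : 𝓞 K, (x : K) = c := by
    intro c hc
    have h1 : FractionalIdeal.spanSingleton (𝓞 K)⁰ (c : K) = 1 := by
      rw [← coe_toPrincipalIdeal, hc, Units.val_one]
    have h2 : (c : K) ∈ FractionalIdeal.spanSingleton (𝓞 K)⁰ (c : K) :=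
      FractionalIdeal.mem_spanSingleton_self _ _
    rw [h1] at h2
    exact (FractionalIdeal.mem_one_iff _).1 h2
  obtain ⟨x, hx⟩ := key b h
  obtain ⟨y, hy⟩ := key b⁻¹ (by rw [map_inv, h, inv_one])
  have h1 : x * y = 1 := by
    apply NumberField.RingOfIntegers.coe_injective
    calc ((x * y : 𝓞 K) : K) = (x : K) * (y : K) := map_mul (algebraMap (𝓞 K) K) x y
      _ = (b : K) * ((b⁻¹ : Kˣ) : K) := by rw [hx, hy]
      _ = 1 := Units.mul_inv b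
      _ = ((1 : 𝓞 K) : K) := (map_one (algebraMap (𝓞 K) K)).symm
  exact ⟨⟨x, y, h1, by rw [mul_comm]; exact h1⟩, hx⟩

/-- The ideal of `v` as a unit. -/
private def Sel_V (v : HeightOneSpectrum (𝓞 K)) : (FractionalIdeal (𝓞 K)⁰ K)ˣ :=
  Units.mk0 _ (Sel_ne v)

private theorem Sel_key (p : ℕ) (hp : 0 < p) (S : Finset (HeightOneSpectrum (𝓞 K))) (b : Kˣ)
    (hS : ∀ v, v ∉ S → (p : ℤ) ∣ FractionalIdeal.count K v
      (FractionalIdeal.spanSingleton (𝓞 K)⁰ (b : K))) :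
    ∃ (a : S → Fin p) (B : (FractionalIdeal (𝓞 K)⁰ K)ˣ),
      toPrincipalIdeal (𝓞 K) K b = B ^ p * ∏ v : S, Sel_V (v : HeightOneSpectrum (𝓞 K)) ^ (a v).val := by
  have hb : FractionalIdeal.spanSingleton (𝓞 K)⁰ (b : K) ≠ 0 :=
    FractionalIdeal.spanSingleton_ne_zero_iff.2 b.ne_zero
  obtain ⟨B, hB⟩ := Sel_fac p S _ hb hS
  have hB0 : B ≠ 0 := by
    rintro rfl
    rw [zero_pow hp.ne', zero_mul] at hB
    exact hb hB
  have hm : ∀ v : HeightOneSpectrum (𝓞 K), 0 ≤ FractionalIdeal.count K v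
      (FractionalIdeal.spanSingleton (𝓞 K)⁰ (b : K)) % (p : ℤ) := fun v =>
    Int.emod_nonneg _ (by exact_mod_cast hp.ne')
  refine ⟨fun v => ⟨(FractionalIdeal.count K (v : HeightOneSpectrum (𝓞 K))
    (FractionalIdeal.spanSingleton (𝓞 K)⁰ (b : K)) % (p : ℤ)).toNat, ?_⟩, Units.mk0 B hB0, ?_⟩
  · have h1 := Int.emod_lt_of_pos (FractionalIdeal.count K (v : HeightOneSpectrum (𝓞 K))
      (FractionalIdeal.spanSingleton (𝓞 K)⁰ (b : K))) (show (0 : ℤ) < p by exact_mod_cast hp)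
    have h2 := hm v
    omega
  · apply Units.ext
    rw [coe_toPrincipalIdeal]
    refine hB.trans ?_
    rw [Units.val_mul, Units.val_pow_eq_pow_val, Units.val_mk0,
      Units.coe_prod, ← Finset.prod_coe_sort]
    congr 1
    refine Finset.prod_congr rfl fun v _ => ?_
    rw [Units.val_pow_eq_pow_val, ← zpow_natCast]
    simp only [Int.toNat_of_nonneg (hm v)]
    rfl

end Frac

private theorem Sel_fin (p : ℕ) (hp : 0 < p) (G : Type) [CommGroup G] [Group.FG G] :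
    Finite (G ⧸ (powMonoidHom p : G →* G).range) := by
  have h1 : Group.FG (G ⧸ (powMonoidHom p : G →* G).range) := QuotientGroup.fg _
  have h2 : IsMulTorsion (G ⧸ (powMonoidHom p : G →* G).range) := by
    intro x
    obtain ⟨g, rfl⟩ := QuotientGroup.mk_surjective x
    rw [isOfFinOrder_iff_pow_eq_one]
    refine ⟨p, hp, ?_⟩
    rw [← QuotientGroup.mk_pow, QuotientGroup.eq_one_iff]
    exact ⟨g, rfl⟩
  exact CommGroup.finite_of_fg_isMulTorsion _ h2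

theorem tSel : S_Sel := by
  intro p hpF K _ _
  classical
  have hp : 0 < p := hpF.out.pos
  have hp0 : (Ideal.span {(p : 𝓞 K)} : Ideal (𝓞 K)) ≠ 0 := by
    rw [Ne, Ideal.zero_eq_bot, Ideal.span_singleton_eq_bot, Nat.cast_eq_zero]
    exact hp.ne'
  have hfin : {v : HeightOneSpectrum (𝓞 K) | v.asIdeal ∣ Ideal.span {(p : 𝓞 K)}}.Finite :=
    Ideal.finite_factors hp0
  have hfg : Group.FG (𝓞 K)ˣ := Group.fg_iff_monoid_fg.2 inferInstance
  have hFU : Finite ((𝓞 K)ˣ ⧸ (powMonoidHom p : (𝓞 K)ˣ →* (𝓞 K)ˣ).range) :=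
    Sel_fin p hp (𝓞 K)ˣ
  have hFC : Finite ((FractionalIdeal (𝓞 K)⁰ K)ˣ ⧸ (toPrincipalIdeal (𝓞 K) K).range) :=
    Finite.of_equiv _ (ClassGroup.equiv K).toEquiv
  let S : Finset (HeightOneSpectrum (𝓞 K)) := hfin.toFinset
  let k0 : (S → Fin p) × ((FractionalIdeal (𝓞 K)⁰ K)ˣ ⧸ (toPrincipalIdeal (𝓞 K) K).range) → Kˣ :=
    fun k => if h : ∃ b : Kˣ, ∃ B : (FractionalIdeal (𝓞 K)⁰ K)ˣ,
      toPrincipalIdeal (𝓞 K) K b = B ^ p * ∏ v : S, Sel_V (v : HeightOneSpectrum (𝓞 K)) ^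
        (k.1 v).val ∧ QuotientGroup.mk B = k.2 then h.choose else 1
  have hk0 : ∀ (a : S → Fin p) (b : Kˣ) (B : (FractionalIdeal (𝓞 K)⁰ K)ˣ),
      toPrincipalIdeal (𝓞 K) K b = B ^ p * ∏ v : S, Sel_V (v : HeightOneSpectrum (𝓞 K)) ^
        (a v).val → ∃ B₀ : (FractionalIdeal (𝓞 K)⁰ K)ˣ,
      toPrincipalIdeal (𝓞 K) K (k0 (a, QuotientGroup.mk B)) = B₀ ^ p *
        ∏ v : S, Sel_V (v : HeightOneSpectrum (𝓞 K)) ^ (a v).val ∧
      (QuotientGroup.mk B₀ : (FractionalIdeal (𝓞 K)⁰ K)ˣ ⧸ (toPrincipalIdeal (𝓞 K) K).range) =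
        QuotientGroup.mk B := by
    intro a b B hb
    have h : ∃ b : Kˣ, ∃ B' : (FractionalIdeal (𝓞 K)⁰ K)ˣ,
      toPrincipalIdeal (𝓞 K) K b = B' ^ p * ∏ v : S, Sel_V (v : HeightOneSpectrum (𝓞 K)) ^
        (a v).val ∧ (QuotientGroup.mk B' :
          (FractionalIdeal (𝓞 K)⁰ K)ˣ ⧸ (toPrincipalIdeal (𝓞 K) K).range) =
        QuotientGroup.mk B := ⟨b, B, hb, rfl⟩
    have e : k0 (a, QuotientGroup.mk B) = h.choose := dif_pos h
    rw [e]
    exact h.choose_spec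
  have hF : Finite (((S → Fin p) × ((FractionalIdeal (𝓞 K)⁰ K)ˣ ⧸
      (toPrincipalIdeal (𝓞 K) K).range)) × ((𝓞 K)ˣ ⧸ (powMonoidHom p : (𝓞 K)ˣ →* (𝓞 K)ˣ).range)) :=
    inferInstance
  let F : (((S → Fin p) × ((FractionalIdeal (𝓞 K)⁰ K)ˣ ⧸ (toPrincipalIdeal (𝓞 K) K).range)) ×
      ((𝓞 K)ˣ ⧸ (powMonoidHom p : (𝓞 K)ˣ →* (𝓞 K)ˣ).range)) → K := fun k =>
    (k0 k.1 : K) * (((Quotient.out k.2 : (𝓞 K)ˣ) : 𝓞 K) : K)
  refine ⟨(Set.finite_range F).toFinset, ?_, ?_⟩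
  · intro t ht
    rw [Set.Finite.mem_toFinset] at ht
    obtain ⟨k, rfl⟩ := ht
    refine mul_ne_zero (k0 k.1).ne_zero ?_
    exact (map_ne_zero_iff _ NumberField.RingOfIntegers.coe_injective).2 (Units.ne_zero _)
  · intro b hb hbv
    obtain ⟨a, B, hB⟩ := Sel_key p hp S (Units.mk0 b hb) (by
      intro v hv
      refine hbv v fun hpv => hv ?_
      rw [Set.Finite.mem_toFinset]
      show v.asIdeal ∣ Ideal.span {(p : 𝓞 K)}
      rw [Ideal.dvd_iff_le, Ideal.span_singleton_le_iff_mem]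
      exact hpv)
    obtain ⟨B₀, hB₀, hcl⟩ := hk0 a _ B hB
    obtain ⟨y, hy⟩ := QuotientGroup.eq.1 hcl
    have hBy : B = B₀ * toPrincipalIdeal (𝓞 K) K y := by rw [hy, mul_inv_cancel_left]
    have h1 : toPrincipalIdeal (𝓞 K) K (Units.mk0 b hb) =
        toPrincipalIdeal (𝓞 K) K (k0 (a, QuotientGroup.mk B) * y ^ p) := by
      rw [hB, map_mul, hB₀, map_pow, hBy, mul_pow, mul_right_comm]
    obtain ⟨e, he⟩ := Sel_one (Units.mk0 b hb * (k0 (a, QuotientGroup.mk B) * y ^ p)⁻¹) (by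
      rw [map_mul, map_inv, h1, mul_inv_cancel])
    obtain ⟨η, hη⟩ := QuotientGroup.eq.1 (Quotient.out_eq' (QuotientGroup.mk e :
      (𝓞 K)ˣ ⧸ (powMonoidHom p : (𝓞 K)ˣ →* (𝓞 K)ˣ).range))
    have hη' : η ^ p = (Quotient.out (QuotientGroup.mk e :
      (𝓞 K)ˣ ⧸ (powMonoidHom p : (𝓞 K)ˣ →* (𝓞 K)ˣ).range) : (𝓞 K)ˣ)⁻¹ * e := hη
    have he' : e = (Quotient.out (QuotientGroup.mk e :
      (𝓞 K)ˣ ⧸ (powMonoidHom p : (𝓞 K)ˣ →* (𝓞 K)ˣ).range) : (𝓞 K)ˣ) * η ^ p := by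
      rw [hη', mul_inv_cancel_left]
    refine ⟨F ((a, QuotientGroup.mk B), QuotientGroup.mk e), ?_,
      ((η : 𝓞 K) : K) * (y : K), ?_, ?_⟩
    · rw [Set.Finite.mem_toFinset]
      exact ⟨_, rfl⟩
    · refine mul_ne_zero ?_ y.ne_zero
      exact (map_ne_zero_iff _ NumberField.RingOfIntegers.coe_injective).2 (Units.ne_zero _)
    · have h2 : (b : K) = ((e : 𝓞 K) : K) * ((k0 (a, QuotientGroup.mk B) : K) * (y : K) ^ p) := by
        rw [he, ← Units.val_pow_eq_pow_val, ← Units.val_mul, ← Units.val_mul,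
          inv_mul_cancel_right, Units.val_mk0]
      have h3 : ((e : 𝓞 K) : K) = (((Quotient.out (QuotientGroup.mk e :
          (𝓞 K)ˣ ⧸ (powMonoidHom p : (𝓞 K)ˣ →* (𝓞 K)ˣ).range) : (𝓞 K)ˣ) : 𝓞 K) : K) *
            ((η : 𝓞 K) : K) ^ p := by
        conv_lhs => rw [he']
        rw [Units.val_mul, Units.val_pow_eq_pow_val]
        refine (map_mul (algebraMap (𝓞 K) K) _ _).trans ?_
        rw [map_pow]
      rw [h2]
      show _ = ((k0 (a, QuotientGroup.mk B) : K) * (((Quotient.out (QuotientGroup.mk e :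
          (𝓞 K)ˣ ⧸ (powMonoidHom p : (𝓞 K)ˣ →* (𝓞 K)ˣ).range) : (𝓞 K)ˣ) : 𝓞 K) : K)) * _
      rw [h3]
      ring

end Pool.Agent.FW
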