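import Pool.Agent.Lib.FW.SpecG

/-! FW, part G, `S_CC`: complex conjugation. -/

open scoped Pointwise nonZeroDivisors

noncomputable section

namespace Pool.Agent.FW

open Pool.Agent.MuZ NumberField

theorem tCC : S_CC := by
  let φ : Om →ₐ[ℚ] ℂ := IsAlgClosed.lift
  letI : Algebra Om ℂ := φ.toRingHom.toAlgebra
  haveI : IsScalarTower ℚ Om ℂ := IsScalarTower.of_algebraMap_eq fun x => (φ.commutes x).symm
  let χ : ℂ ≃ₐ[ℚ] ℂ := Complex.conjAe.restrictScalars ℚ
  exact ⟨χ.restrictNormal Om, φ.toRingHom, fun x => χ.restrictNormal_commutes Om x⟩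

end Pool.Agent.FW
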