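import Pool.Agent.Lib.FW.SpecG
import Pool.Agent.Lib.MuZ.InT

open scoped Pointwise

noncomputable section

namespace Pool.Agent.FW

open Pool.Agent.MuZ

namespace ExYAux

/-- Splitting of roots of unity of coprime orders. -/
theorem split (m n : ℕ) (h : m.Coprime n) (z : Om) (hz : z ^ (m * n) = 1) :
    ∃ z1 z2 : Om, z1 ^ m = 1 ∧ z2 ^ n = 1 ∧ z = z1 * z2 := by
  obtain ⟨c1, h11, h12⟩ := Nat.chineseRemainder h 1 0
  obtain ⟨c2, h21, h22⟩ := Nat.chineseRemainder h 0 1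
  refine ⟨z ^ c1, z ^ c2, ?_, ?_, ?_⟩
  · obtain ⟨k, hk⟩ := (Nat.modEq_zero_iff_dvd).1 h12
    rw [hk, ← pow_mul]
    have : n * k * m = m * n * k := by ring
    rw [this, pow_mul, hz, one_pow]
  · obtain ⟨k, hk⟩ := (Nat.modEq_zero_iff_dvd).1 h21
    rw [hk, ← pow_mul]
    have : m * k * n = m * n * k := by ring
    rw [this, pow_mul, hz, one_pow]
  · have h1 : c1 + c2 ≡ 1 [MOD m * n] := by
      rw [← Nat.modEq_and_modEq_iff_modEq_mul h]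
      exact ⟨by simpa using h11.add h21, by simpa using h12.add h22⟩
    rw [← pow_add, pow_eq_pow_of_modEq h1 hz, pow_one]

/-- The inertia group of `P` fixes the `p`-power roots of unity. -/
theorem fix_root (p : ℕ) (hpp : p.Prime) (P : Ideal ZZ) (hP : P.IsPrime) (hp : (p : ZZ) ∉ P)
    (σ : Gal(Om/ℚ)) (hσ : σ ∈ P.inertia Gal(Om/ℚ)) (z : Om) (n : ℕ) (hz : z ^ p ^ n = 1) :
    σ z = z := by
  have hpos : 0 < p ^ n := Nat.pow_pos hpp.pos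
  have hint : IsIntegral ℤ z := by
    refine IsIntegral.of_pow hpos ?_
    rw [hz]
    exact isIntegral_one
  set x : ZZ := ⟨z, hint⟩ with hx
  have hx1 : x ^ p ^ n = 1 := Subtype.ext hz
  have hxx : x * x ^ (p ^ n - 1) = 1 := by
    rw [← pow_succ', Nat.sub_add_cancel hpos, hx1]
  have hs : σ • x - x ∈ P := hσ x
  have hs1 : (σ • x) ^ p ^ n = 1 := by
    rw [← smul_pow', hx1, smul_one]
  have h1 : (σ • x * x ^ (p ^ n - 1)) ^ p ^ n = 1 := by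
    rw [mul_pow, hs1, one_mul, ← pow_mul, mul_comm (p ^ n - 1), pow_mul, hx1, one_pow]
  have h2 : σ • x * x ^ (p ^ n - 1) - 1 ∈ P := by
    have e : σ • x * x ^ (p ^ n - 1) - 1 = (σ • x - x) * x ^ (p ^ n - 1) := by
      rw [sub_mul, hxx]
    rw [e]
    exact P.mul_mem_right _ hs
  have h3 : σ • x * x ^ (p ^ n - 1) = 1 := InTAux.root_one hP hp h1 h2
  have h4 : σ • x = x := by
    calc σ • x = σ • x * (x * x ^ (p ^ n - 1)) := by rw [hxx, mul_one]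
      _ = (σ • x * x ^ (p ^ n - 1)) * x := by ring
      _ = x := by rw [h3, one_mul]
  exact congrArg Subtype.val h4

/-- `Y ∩ I_P ≤ U`. -/
theorem mem_UU (p f : ℕ) (hpp : p.Prime) (hp2 : p ≠ 2) (hpf : ¬ p ∣ f) (P : Ideal ZZ)
    (hP : P.IsPrime) (hp : (p : ZZ) ∉ P) (σ : Gal(Om/ℚ)) (hσ : σ ∈ P.inertia Gal(Om/ℚ))
    (hY : σ ∈ YY p f) : σ ∈ UU p f := by
  have hfix := fix_root p hpp P hP hp σ hσ
  have hY1 : ∀ z : Om, z ^ (f * p) = 1 → σ z = z := by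
    rcases hY with h | h
    · exact h
    · exfalso
      have : NeZero p := ⟨hpp.ne_zero⟩
      obtain ⟨ζ, hζ⟩ := HasEnoughRootsOfUnity.exists_primitiveRoot Om p
      have h1 : σ ζ = ζ⁻¹ := h ζ (by rw [mul_comm, pow_mul, hζ.pow_eq_one, one_pow])
      have h2 : σ ζ = ζ := hfix ζ 1 (by rw [pow_one, hζ.pow_eq_one])
      have h0 : ζ ≠ 0 := hζ.ne_zero hpp.ne_zero
      have h3 : ζ ^ 2 = 1 := by
        rw [pow_two]
        nth_rw 1 [← h2, h1]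
        exact inv_mul_cancel₀ h0
      have h4 : p ∣ 2 := (hζ.pow_eq_one_iff_dvd 2).1 h3
      have h5 := Nat.le_of_dvd (by omega) h4
      have h6 := hpp.two_le
      omega
  refine Or.inl fun z hz => ?_
  obtain ⟨n, hn⟩ := hz
  have hco : f.Coprime (p ^ n) :=
    Nat.Coprime.pow_right _ ((Nat.Prime.coprime_iff_not_dvd hpp).2 hpf).symm
  obtain ⟨z1, z2, h1, h2, rfl⟩ := split f (p ^ n) hco z hn
  rw [map_mul, hY1 z1 (by rw [pow_mul, h1, one_pow]), hfix z2 n h2]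

section Grp

variable {G : Type} [Group G] {p : ℕ} {Y N : Subgroup G} {γ : G} {g : G → ZMod p}

theorem inv_pow (hγY : γ ∈ Y) (nrm : ∀ y ∈ Y, ∀ n ∈ N, y * n * y⁻¹ ∈ N)
    (hinv : ∀ τ ∈ N, g (γ⁻¹ * τ * γ) = g τ) (j : ℕ) :
    ∀ x ∈ N, g (γ ^ j * x * (γ ^ j)⁻¹) = g x := by
  induction j with
  | zero => intro x _; simp
  | succ j ih =>
    intro x hx
    have e : γ ^ (j + 1) * x * (γ ^ (j + 1))⁻¹ = γ * (γ ^ j * x * (γ ^ j)⁻¹) * γ⁻¹ := by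
      rw [pow_succ']
      group
    have hm : γ ^ j * x * (γ ^ j)⁻¹ ∈ N := nrm _ (pow_mem hγY j) x hx
    have hm2 : γ * (γ ^ j * x * (γ ^ j)⁻¹) * γ⁻¹ ∈ N := nrm _ hγY _ hm
    have h1 := hinv _ hm2
    have e2 : γ⁻¹ * (γ * (γ ^ j * x * (γ ^ j)⁻¹) * γ⁻¹) * γ = γ ^ j * x * (γ ^ j)⁻¹ := by group
    rw [e2, ih x hx] at h1
    rw [e, ← h1]

theorem conj_self (hadd : ∀ a ∈ N, ∀ b ∈ N, g (a * b) = g a + g b) (t : G) (ht : t ∈ N) (x : G)
    (hx : x ∈ N) : g (t * x * t⁻¹) = g x := by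
  have h1 : g (1 : G) = 0 := by
    have h := hadd 1 N.one_mem 1 N.one_mem
    rw [mul_one] at h
    exact (left_eq_add.1 h)
  have h2 : g t + g t⁻¹ = 0 := by
    rw [← hadd t ht t⁻¹ (N.inv_mem ht), mul_inv_cancel, h1]
  rw [hadd _ (N.mul_mem ht hx) _ (N.inv_mem ht), hadd _ ht _ hx]
  linear_combination h2

end Grp

/-- Invariance under conjugation by `Y`. -/
theorem inv_Y {G : Type} [Group G] [TopologicalSpace G] [IsTopologicalGroup G] [CompactSpace G]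
    [TotallyDisconnectedSpace G] [T2Space G] {p : ℕ} {Y N : Subgroup G} {γ : G} (hG : Gq p Y N γ)
    {g : G → ZMod p} (hadd : ∀ a ∈ N, ∀ b ∈ N, g (a * b) = g a + g b)
    (O : OpenSubgroup G) (hO : ∀ x ∈ N, x ∈ O → g x = 0)
    (hinv : ∀ τ ∈ N, g (γ⁻¹ * τ * γ) = g τ) (y : G) (hy : y ∈ Y) (x : G) (hx : x ∈ N) :
    g (y * x * y⁻¹) = g x := by
  obtain ⟨H, hH⟩ := ProfiniteGrp.exist_openNormalSubgroup_sub_open_nhds_of_one
    (U := (O : Set G)) O.isOpen (one_mem O)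
  have hnH : (H : Subgroup G).Normal := H.isNormal'
  obtain ⟨j, t, ht, ho⟩ := hG.gen y hy H.toOpenSubgroup
  set o := y⁻¹ * γ ^ j * t with hodef
  have hoH : o ∈ (H : Subgroup G) := ho
  have hoY : o ∈ Y := Y.mul_mem (Y.mul_mem (Y.inv_mem hy) (pow_mem hG.mem j)) (hG.le ht)
  have hy' : y = γ ^ j * t * o⁻¹ := by rw [hodef]; group
  have e : y * x * y⁻¹ = γ ^ j * (t * (o⁻¹ * x * o) * t⁻¹) * (γ ^ j)⁻¹ := by
    rw [hy']
    group
  have h1 : o⁻¹ * x * o ∈ N := by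
    have := hG.nrm o⁻¹ (Y.inv_mem hoY) x hx
    rwa [inv_inv] at this
  have h2 : t * (o⁻¹ * x * o) * t⁻¹ ∈ N := hG.nrm t (hG.le ht) _ h1
  rw [e, inv_pow hG.mem hG.nrm hinv j _ h2, conj_self hadd t ht _ h1]
  have e2 : o⁻¹ * x * o = x * (x⁻¹ * o⁻¹ * x * o) := by group
  have h3 : x⁻¹ * o⁻¹ * x * o ∈ (H : Subgroup G) := by
    have h4 := hnH.conj_mem o⁻¹ ((H : Subgroup G).inv_mem hoH) x⁻¹
    rw [inv_inv] at h4
    exact (H : Subgroup G).mul_mem h4 hoH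
  have h4 : x⁻¹ * o⁻¹ * x * o ∈ N := by
    have : x⁻¹ * o⁻¹ * x * o = x⁻¹ * (o⁻¹ * x * o) := by group
    rw [this]
    exact N.mul_mem (N.inv_mem hx) h1
  rw [e2, hadd x hx _ h4, hO _ h4 (hH h3), add_zero]

end ExYAux

theorem tExY : S_ExY := by
  classical
  intro hPL hSemi hVal p f hpF hp2 hf hpf γ hG g hg hinv
  obtain ⟨g1, g2, ⟨O, g3⟩, g4⟩ := hg
  obtain ⟨γ', hZ⟩ := hPL Gal(Om/ℚ) p (YY p f) (UU p f) γ hG
  have hconj := fun y hy x hx => ExYAux.inv_Y hG g2 O g3 hinv y hy x hx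
  obtain ⟨h', k1, ⟨O', k2⟩, k3, -⟩ := hSemi hVal Gal(Om/ℚ) p (YY p f) (UU p f) γ' hZ
    (Multiplicative (ZMod p)) (fun x => Multiplicative.ofAdd (g x)) 1
    (fun x hx y hy => by
      show Multiplicative.ofAdd (g (x * y)) = _
      rw [g2 x hx y hy]
      rfl)
    ⟨O, fun x hx hxO => by
      show Multiplicative.ofAdd (g x) = 1
      rw [g3 x hx hxO]
      rfl⟩
    ⟨0, one_pow _⟩
    (fun x hx => by
      show Multiplicative.ofAdd (g (γ' * x * γ'⁻¹)) = 1 * Multiplicative.ofAdd (g x) * 1⁻¹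
      rw [hconj γ' hZ.mem x hx, one_mul, inv_one, mul_one])
  have hle := hG.le
  let e : Gal(Om/ℚ) → ZMod p := fun x => if x ∈ YY p f then Multiplicative.toAdd (h' x) else 0
  have eY : ∀ x ∈ YY p f, e x = Multiplicative.toAdd (h' x) := fun x hx => if_pos hx
  have eU : ∀ x ∈ UU p f, e x = g x := by
    intro x hx
    rw [eY x (hle hx), k3 x hx]
    rfl
  refine ⟨e, ⟨fun x hx => if_neg hx, fun x hx y hy => ?_, ⟨O', fun x hx hxO => ?_⟩,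
    fun Λ hΛ x hxΛ hxY => ?_⟩, eU⟩
  · rw [eY _ (Subgroup.mul_mem _ hx hy), eY x hx, eY y hy, k1 x hx y hy]
    rfl
  · rw [eY x hx, k2 x hx hxO]
    rfl
  · obtain ⟨P, hP, hP0, hpP, rfl⟩ := hΛ
    have hxU : x ∈ UU p f := ExYAux.mem_UU p f hpF.out hp2 hpf P hP hpP x hxΛ hxY
    rw [eU x hxU]
    exact g4 _ ⟨P, hP, hP0, hpP, rfl⟩ x hxΛ hxU

end Pool.Agent.FW
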