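import Pool.Agent.Lib.FW.SpecG

/-!
# Part G, assembly (`S_GAs`)
-/

open scoped Pointwise

noncomputable section

namespace Pool.Agent.FW

open Pool.Agent.MuZ

private theorem GAs_roots (n : ℕ) (hn : 0 < n) : {z : Om | z ^ n = 1}.Finite := by
  have h1 : (Polynomial.X ^ n - Polynomial.C (1 : Om)) ≠ 0 :=
    Polynomial.X_pow_sub_C_ne_zero hn 1
  refine (Polynomial.X ^ n - Polynomial.C (1 : Om)).rootSet_finite Om |>.subset ?_
  intro z hz
  have hz' : z ^ n = 1 := hz
  rw [Polynomial.mem_rootSet_of_ne h1]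
  simp [hz']

private theorem GAs_fin (n : ℕ) (hn : 0 < n) : FiniteDimensional ℚ (Cy n) := by
  have hfin : Finite {z : Om | z ^ n = 1} := (GAs_roots n hn).to_subtype
  unfold Cy
  exact IntermediateField.finiteDimensional_adjoin fun x _ => Algebra.IsIntegral.isIntegral x

private theorem GAs_field (p f : ℕ) (hp : 0 < p) (hf : 0 < f) :
    ∃ L : IntermediateField ℚ Om, FiniteDimensional ℚ L ∧ L.fixingSubgroup = YY p f := by
  have hfd : FiniteDimensional ℚ (Cy (f * p)) := GAs_fin (f * p) (Nat.mul_pos hf hp)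
  have hle : (Cy (f * p)).fixingSubgroup ≤ YY p f := by
    intro σ hσ
    refine Or.inl fun z hz => ?_
    exact (IntermediateField.mem_fixingSubgroup_iff (Cy (f * p)) σ).1 hσ z
      (IntermediateField.subset_adjoin ℚ _ hz)
  have hopen : IsOpen (YY p f : Set Gal(Om/ℚ)) :=
    Subgroup.isOpen_mono hle (IntermediateField.fixingSubgroup_isOpen (Cy (f * p)))
  have hclosed : IsClosed (YY p f : Set Gal(Om/ℚ)) := Subgroup.isClosed_of_isOpen _ hopen
  have hfix : (IntermediateField.fixedField (YY p f)).fixingSubgroup = YY p f :=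
    InfiniteGalois.fixingSubgroup_fixedField (k := ℚ) (K := Om) ⟨YY p f, hclosed⟩
  refine ⟨IntermediateField.fixedField (YY p f), ?_, hfix⟩
  refine (InfiniteGalois.isOpen_iff_finite (IntermediateField.fixedField (YY p f))).1 ?_
  rw [hfix]
  exact hopen

theorem tGAs : S_GAs := by
  classical
  intro hKF hEx p f hp hp2 hf hpf γ hγ
  obtain ⟨L, hL, hLY⟩ := GAs_field p f hp.out.pos hf
  have hfin : Finite (VV p (LocO p) (YY p f)) := by
    rw [← hLY]
    exact hKF p L hL
  refine (Set.finite_range (fun e : VV p (LocO p) (YY p f) =>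
    (fun τ : Gal(Om/ℚ) => if τ ∈ UU p f then (e : Gal(Om/ℚ) → ZMod p) τ else 0))).subset ?_
  rintro g ⟨hg, hinv⟩
  obtain ⟨e, he, heg⟩ := hEx p f hp2 hf hpf γ hγ g hg hinv
  refine ⟨⟨e, he⟩, ?_⟩
  funext τ
  by_cases hτ : τ ∈ UU p f
  · simp only [hτ, if_true]
    exact heg τ hτ
  · simp only [hτ, if_false]
    exact (hg.1 τ hτ).symm

end Pool.Agent.FW
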