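import Pool.Agent.Lib.FW.SpecG
import Pool.Agent.Lib.MuZ.Inst

/-!
# FW, part G, module GqY: the group `Y / U` is procyclic
-/

open scoped Pointwise nonZeroDivisors

noncomputable section

namespace Pool.Agent.FW

open Pool.Agent.MuZ NumberField

/-- `σ` acts on the `m`-th roots of unity by the power `x`. -/
private def GqY_A (m : ℕ) (σ : Gal(Om/ℚ)) (x : ℤ) : Prop := ∀ z : Om, z ^ m = 1 → σ z = z ^ x

private theorem GqY_prim (m : ℕ) (hm : 0 < m) : ∃ ζ : Om, IsPrimitiveRoot ζ m := by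
  have hne : NeZero m := ⟨hm.ne'⟩
  have hne' : NeZero ((m : ℕ) : Om) := ⟨by
    rw [Nat.cast_ne_zero]
    exact hm.ne'⟩
  exact HasEnoughRootsOfUnity.exists_primitiveRoot Om m

private theorem GqY_ex (m : ℕ) (hm : 0 < m) (σ : Gal(Om/ℚ)) : ∃ x : ℤ, GqY_A m σ x := by
  obtain ⟨ζ, hζ⟩ := GqY_prim m hm
  have hne : NeZero m := ⟨hm.ne'⟩
  obtain ⟨i, -, hi⟩ := hζ.eq_pow_of_pow_eq_one (show (σ ζ) ^ m = 1 by
    rw [← map_pow, hζ.pow_eq_one, map_one])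
  refine ⟨(i : ℤ), fun z hz => ?_⟩
  obtain ⟨j, -, hj⟩ := hζ.eq_pow_of_pow_eq_one hz
  rw [← hj, map_pow, ← hi, zpow_natCast, ← pow_mul, ← pow_mul, mul_comm]

private theorem GqY_uni (m : ℕ) (hm : 0 < m) (σ : Gal(Om/ℚ)) (x y : ℤ) (hx : GqY_A m σ x)
    (hy : GqY_A m σ y) : (m : ℤ) ∣ x - y := by
  obtain ⟨ζ, hζ⟩ := GqY_prim m hm
  have h0 : ζ ≠ 0 := hζ.ne_zero hm.ne'
  have h1 : ζ ^ x = ζ ^ y := by rw [← hx ζ hζ.pow_eq_one, hy ζ hζ.pow_eq_one]
  rw [← hζ.zpow_eq_one_iff_dvd, zpow_sub₀ h0, h1, div_self (zpow_ne_zero _ h0)]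

private theorem GqY_ne (m : ℕ) (hm : 0 < m) (z : Om) (hz : z ^ m = 1) : z ≠ 0 := by
  rintro rfl
  rw [zero_pow hm.ne'] at hz
  exact zero_ne_one hz

private theorem GqY_cong (m : ℕ) (hm : 0 < m) (σ : Gal(Om/ℚ)) (x y : ℤ) (hx : GqY_A m σ x)
    (h : (m : ℤ) ∣ x - y) : GqY_A m σ y := by
  intro z hz
  have h0 := GqY_ne m hm z hz
  obtain ⟨c, hc⟩ := h
  have h1 : x = y + m * c := by omega
  rw [hx z hz, h1, zpow_add₀ h0, zpow_mul, zpow_natCast, hz, one_zpow, mul_one]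

private theorem GqY_zp (m : ℕ) (z : Om) (hz : z ^ m = 1) (x : ℤ) : (z ^ x) ^ m = 1 := by
  rw [← zpow_natCast, ← zpow_mul, mul_comm, zpow_mul, zpow_natCast, hz, one_zpow]

private theorem GqY_mul (m : ℕ) (σ τ : Gal(Om/ℚ)) (x y : ℤ) (hx : GqY_A m σ x)
    (hy : GqY_A m τ y) : GqY_A m (σ * τ) (x * y) := by
  intro z hz
  rw [AlgEquiv.mul_apply, hy z hz, map_zpow₀, hx z hz, ← zpow_mul]

private theorem GqY_pow (m : ℕ) (σ : Gal(Om/ℚ)) (x : ℤ) (hx : GqY_A m σ x) (n : ℕ) :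
    GqY_A m (σ ^ n) (x ^ n) := by
  induction n with
  | zero =>
    intro z _
    rw [pow_zero, pow_zero, zpow_one, AlgEquiv.one_apply]
  | succ n ih =>
    rw [pow_succ, pow_succ]
    exact GqY_mul m _ _ _ _ ih hx

private theorem GqY_dvd (m d : ℕ) (hd : d ∣ m) (σ : Gal(Om/ℚ)) (x : ℤ) (hx : GqY_A m σ x) :
    GqY_A d σ x := by
  intro z hz
  obtain ⟨c, rfl⟩ := hd
  exact hx z (by rw [pow_mul, hz, one_pow])

private theorem GqY_crt (a b : ℕ) (hab : a.Coprime b) (ha : 0 < a) (hb : 0 < b)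
    (σ : Gal(Om/ℚ)) (x : ℤ) (hx : GqY_A a σ x) (hy : GqY_A b σ x) : GqY_A (a * b) σ x := by
  intro z hz
  have h0 := GqY_ne (a * b) (Nat.mul_pos ha hb) z hz
  obtain ⟨u, v, huv⟩ := Nat.isCoprime_iff_coprime.2 hab
  have h1 : z = z ^ (u * (a : ℤ)) * z ^ (v * (b : ℤ)) := by
    rw [← zpow_add₀ h0, huv, zpow_one]
  have ha1 : (z ^ (v * (b : ℤ))) ^ a = 1 := by
    rw [← zpow_natCast, ← zpow_mul, mul_assoc, mul_comm v, zpow_mul, ← Nat.cast_mul, mul_comm b a,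
      zpow_natCast, hz, one_zpow]
  have hb1 : (z ^ (u * (a : ℤ))) ^ b = 1 := by
    rw [← zpow_natCast, ← zpow_mul, mul_assoc, mul_comm u, zpow_mul, ← Nat.cast_mul,
      zpow_natCast, hz, one_zpow]
  rw [h1, map_mul, hx _ ha1, hy _ hb1, mul_zpow]

/-- existence of `j` -/
private theorem GqY_j (p : ℕ) [hp : Fact p.Prime] (hp2 : p ≠ 2) (k : ℕ) (a : ℤ)
    (ha : (p : ℤ) ∣ a - 1) : ∃ j : ℕ, ((p ^ k : ℕ) : ℤ) ∣ (1 + p) ^ j - a := by
  classical
  cases k with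
  | zero => exact ⟨0, by simp⟩
  | succ n =>
    let A : Finset (ZMod (p ^ (n + 1))) := (Finset.range (p ^ n)).image
      fun i : ℕ => 1 + (p : ZMod (p ^ (n + 1))) * (i : ZMod (p ^ (n + 1)))
    let B : Finset (ZMod (p ^ (n + 1))) := (Finset.range (p ^ n)).image
      fun j : ℕ => (1 + (p : ZMod (p ^ (n + 1)))) ^ j
    have hA : ∀ c : ℤ, 1 + (p : ZMod (p ^ (n + 1))) * (c : ZMod (p ^ (n + 1))) ∈ A := by
      intro c
      have hpn : (0 : ℤ) < (p ^ n : ℕ) := by exact_mod_cast pow_pos hp.out.pos n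
      have h1 := Int.emod_nonneg c hpn.ne'
      have h2 := Int.emod_lt_of_pos c hpn
      refine Finset.mem_image.2 ⟨(c % (p ^ n : ℕ)).toNat, Finset.mem_range.2 (by omega), ?_⟩
      have h3 : ((((c % (p ^ n : ℕ)).toNat : ℕ) : ℤ) : ZMod (p ^ (n + 1))) =
          ((c % (p ^ n : ℕ) : ℤ) : ZMod (p ^ (n + 1))) := by rw [Int.toNat_of_nonneg h1]
      rw [Int.cast_natCast] at h3
      rw [h3]
      have h4 : (c : ZMod (p ^ (n + 1))) = ((c % (p ^ n : ℕ) : ℤ) : ZMod (p ^ (n + 1))) +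
          ((p ^ n : ℕ) : ZMod (p ^ (n + 1))) * ((c / (p ^ n : ℕ) : ℤ) : ZMod (p ^ (n + 1))) := by
        have := Int.emod_add_mul_ediv c (p ^ n : ℕ)
        conv_lhs => rw [← this]
        push_cast
        rfl
      have h5 : (p : ZMod (p ^ (n + 1))) * ((p ^ n : ℕ) : ZMod (p ^ (n + 1))) = 0 := by
        rw [← Nat.cast_mul, ← pow_succ', ZMod.natCast_self]
      rw [h4, mul_add, ← mul_assoc, h5, zero_mul, add_zero]
    have hBA : B ⊆ A := by
      intro x hx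
      obtain ⟨j, -, rfl⟩ := Finset.mem_image.1 hx
      have h1 : ∃ c : ℤ, (1 + (p : ℤ)) ^ j = 1 + p * c := by
        have h2 : (p : ℤ) ∣ (1 + (p : ℤ)) ^ j - 1 := by
          have := sub_dvd_pow_sub_pow (1 + (p : ℤ)) 1 j
          rwa [one_pow, add_sub_cancel_left] at this
        obtain ⟨c, hc⟩ := h2
        exact ⟨c, by omega⟩
      obtain ⟨c, hc⟩ := h1
      have h3 := congrArg (fun t : ℤ => (t : ZMod (p ^ (n + 1)))) hc
      push_cast at h3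
      show (1 + (p : ZMod (p ^ (n + 1)))) ^ j ∈ A
      rw [h3]
      exact hA c
    have hcB : B.card = p ^ n := by
      rw [Finset.card_image_of_injOn, Finset.card_range]
      have h1 := ZMod.orderOf_one_add_prime hp.out hp2 n
      have h2 := pow_injOn_Iio_orderOf (x := (1 + (p : ZMod (p ^ (n + 1)))))
      rw [h1] at h2
      intro i hi j hj hij
      exact h2 (by simpa using hi) (by simpa using hj) hij
    have hcA : A.card ≤ B.card := by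
      rw [hcB]
      exact Finset.card_image_le.trans (by rw [Finset.card_range])
    have hAB : B = A := Finset.eq_of_subset_of_card_le hBA hcA
    obtain ⟨c, hc⟩ := ha
    have h1 : (a : ZMod (p ^ (n + 1))) ∈ B := by
      rw [hAB]
      have h2 : a = 1 + p * c := by omega
      rw [h2]
      push_cast
      exact hA c
    obtain ⟨j, -, hj⟩ := Finset.mem_image.1 h1
    refine ⟨j, ?_⟩
    rw [← ZMod.intCast_zmod_eq_zero_iff_dvd]
    push_cast
    rw [hj, sub_self]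

private theorem GqY_cl (z w : Om) : IsClosed {σ : Gal(Om/ℚ) | σ z = w} := by
  let _ : TopologicalSpace Om := ⊥
  have hd : DiscreteTopology Om := ⟨rfl⟩
  have hcs : ContinuousSMul Gal(Om/ℚ) Om := continuousSMul_iff_stabilizer_isOpen.mpr
    fun x => stabilizer_isOpen_of_isIntegral (K := ℚ) (L := Om) x
  have h1 : Continuous fun σ : Gal(Om/ℚ) => σ • z := continuous_id.smul continuous_const
  exact (isClosed_discrete ({w} : Set Om)).preimage h1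

private theorem GqY_clA (S : Set Om) (f : Om → Om) :
    IsClosed {σ : Gal(Om/ℚ) | ∀ z : Om, z ∈ S → σ z = f z} := by
  have h1 : {σ : Gal(Om/ℚ) | ∀ z : Om, z ∈ S → σ z = f z} =
      ⋂ z ∈ S, {σ : Gal(Om/ℚ) | σ z = f z} := by
    ext σ
    simp
  rw [h1]
  exact isClosed_biInter fun z _ => GqY_cl z (f z)

private theorem GqY_J (J : Gal(Om/ℚ)) (hJ : IsCC J) (m : ℕ) (hm : 0 < m) (z : Om)
    (hz : z ^ m = 1) : J z = z⁻¹ := by
  obtain ⟨φ, hφ⟩ := hJ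
  apply φ.injective
  rw [hφ, map_inv₀]
  have h1 : (φ z) ^ m = 1 := by rw [← map_pow, hz, map_one]
  have h2 : ‖φ z‖ = 1 := by
    have h3 : ‖φ z‖ ^ m = 1 := by rw [← norm_pow, h1, norm_one]
    exact (pow_eq_one_iff_of_nonneg (norm_nonneg _) hm.ne').1 h3
  exact (Complex.inv_eq_conj h2).symm

/-- compactness -/
private theorem GqY_comp (p f : ℕ) (O : OpenSubgroup Gal(Om/ℚ)) : ∃ k : ℕ, ∀ ν : Gal(Om/ℚ),
    GqY_A (f * p ^ k) ν 1 → ∃ u ∈ MM p f, ν * u ∈ O := by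
  let s : Set Gal(Om/ℚ) := {ν | ∃ u ∈ MM p f, ν * u ∈ O}
  have hs : IsOpen s := by
    have h1 : s = ⋃ u ∈ MM p f, (fun ν => ν * u) ⁻¹' (O : Set Gal(Om/ℚ)) := by
      ext ν
      simp [s]
    rw [h1]
    exact isOpen_biUnion fun u _ => O.isOpen.preimage (continuous_mul_const u)
  let t : ℕ → Set Gal(Om/ℚ) := fun k => {ν | GqY_A (f * p ^ k) ν 1}
  have ht : ∀ k, IsClosed (t k) := fun k => GqY_clA {z | z ^ (f * p ^ k) = 1} fun z => z ^ (1 : ℤ)
  have hmono : ∀ i j, i ≤ j → t j ⊆ t i := fun i j hij ν hν =>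
    GqY_dvd _ _ (Nat.mul_dvd_mul_left f (pow_dvd_pow p hij)) ν 1 hν
  obtain ⟨k, hk⟩ := (hs.isClosed_compl.isCompact).elim_directed_family_closed t ht (by
    rw [Set.eq_empty_iff_forall_notMem]
    rintro ν ⟨hν, hν'⟩
    apply hν
    refine ⟨ν⁻¹, inv_mem (show ν ∈ MM p f from ?_), ?_⟩
    · rintro z ⟨n, hn⟩
      have h1 := Set.mem_iInter.1 hν' n z hn
      rwa [zpow_one] at h1
    · rw [mul_inv_cancel]
      exact O.one_mem)
    (directed_of_isDirected_le fun i j hij => hmono i j hij)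
  refine ⟨k, fun ν hν => ?_⟩
  by_contra h
  have h1 : ν ∈ sᶜ ∩ t k := ⟨h, hν⟩
  rw [hk] at h1
  exact h1

/-- from the action on the roots of unity to `U` modulo `O` -/
private theorem GqY_main (p f : ℕ) (hp : 0 < p) (hf : 0 < f) (J : Gal(Om/ℚ)) (hJ : IsCC J)
    (O : OpenSubgroup Gal(Om/ℚ)) : ∃ k : ℕ, ∀ (ν : Gal(Om/ℚ)) (ε : ℤ), ε = 1 ∨ ε = -1 →
    GqY_A (f * p ^ k) ν ε → ∃ t ∈ UU p f, ν * t ∈ O := by
  obtain ⟨k, hk⟩ := GqY_comp p f O
  refine ⟨k, ?_⟩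
  rintro ν ε (rfl | rfl) hν
  · obtain ⟨u, hu, h⟩ := hk ν hν
    exact ⟨u, MM_le_UU p f hu, h⟩
  · have hJU : J ∈ UU p f := by
      refine Or.inr ?_
      rintro z ⟨n, hn⟩
      exact GqY_J J hJ _ (Nat.mul_pos hf (pow_pos hp n)) z hn
    have h1 : GqY_A (f * p ^ k) (ν * J) 1 := by
      have h2 := GqY_mul (f * p ^ k) ν J (-1) (-1) hν (fun z hz => by
        rw [GqY_J J hJ _ (Nat.mul_pos hf (pow_pos hp k)) z hz, zpow_neg_one])
      simpa using h2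
    obtain ⟨u, hu, h⟩ := hk (ν * J) h1
    exact ⟨J * u, mul_mem hJU (MM_le_UU p f hu), by rw [← mul_assoc]; exact h⟩

private theorem GqY_x (p f k : ℕ) (hp : 0 < p) (hf : 0 < f) (y : Gal(Om/ℚ))
    (hy : y ∈ YY p f) : ∃ ε x : ℤ, (ε = 1 ∨ ε = -1) ∧ GqY_A (f * p ^ (k + 1)) y x ∧
      ((f * p : ℕ) : ℤ) ∣ x - ε := by
  obtain ⟨x, hx⟩ := GqY_ex (f * p ^ (k + 1)) (Nat.mul_pos hf (pow_pos hp _)) y
  have h1 : GqY_A (f * p) y x := GqY_dvd _ _ (Nat.mul_dvd_mul_left f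
    (dvd_pow_self p (Nat.succ_ne_zero k))) y x hx
  rcases hy with hy | hy
  · exact ⟨1, x, Or.inl rfl, hx, GqY_uni _ (Nat.mul_pos hf hp) y x 1 h1
      fun z hz => by rw [hy z hz, zpow_one]⟩
  · exact ⟨-1, x, Or.inr rfl, hx, GqY_uni _ (Nat.mul_pos hf hp) y x (-1) h1
      fun z hz => by rw [hy z hz, zpow_neg_one]⟩

theorem tGqY : S_GqY := by
  intro p f hpF hp2 hf hpf γ J hγ hJ
  have hp := hpF.out.pos
  have hodd : Odd p := hpF.out.odd_of_ne_two hp2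
  have hcop : ∀ k : ℕ, f.Coprime (p ^ k) := fun k =>
    (Nat.Coprime.pow_left k ((Nat.Prime.coprime_iff_not_dvd hpF.out).2 hpf)).symm
  have hγf : GqY_A f γ 1 := fun z hz => by
    rw [hγ.1 z (by rw [pow_mul, hz, one_pow]), zpow_one]
  have hγp : ∀ k, GqY_A (p ^ k) γ (1 + p) := fun k z hz => by
    rw [hγ.2 z k hz]
    exact_mod_cast (zpow_natCast z (1 + p)).symm
  have hεε : ∀ ε : ℤ, ε = 1 ∨ ε = -1 → ε * ε = 1 := by
    rintro ε (rfl | rfl) <;> norm_num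
  refine ⟨?_, ?_, ?_, ?_, ?_, ?_, ?_, ?_⟩
  · exact Or.inl hγ.1
  · rintro σ (hσ | hσ)
    · exact Or.inl fun z hz => hσ z ⟨1, by rwa [pow_one]⟩
    · exact Or.inr fun z hz => hσ z ⟨1, by rwa [pow_one]⟩
  · intro y _ n hn
    have hi : ∀ z : Om, y (y⁻¹ z) = z := fun z => by
      rw [← AlgEquiv.mul_apply, mul_inv_cancel, AlgEquiv.one_apply]
    rcases hn with hn | hn
    · refine Or.inl fun z hz => ?_
      rw [AlgEquiv.mul_apply, AlgEquiv.mul_apply, hn _ (hz.map y⁻¹), hi]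
    · refine Or.inr fun z hz => ?_
      rw [AlgEquiv.mul_apply, AlgEquiv.mul_apply, hn _ (hz.map y⁻¹), map_inv₀, hi]
  · have h1 := (GqY_clA {z : Om | z ^ (f * p) = 1} fun z => z).union
      (GqY_clA {z : Om | z ^ (f * p) = 1} fun z => z⁻¹)
    exact h1
  · have h1 := (GqY_clA {z : Om | IsRt p f z} fun z => z).union
      (GqY_clA {z : Om | IsRt p f z} fun z => z⁻¹)
    exact h1
  · intro y hy O
    obtain ⟨k, hk⟩ := GqY_main p f hp hf J hJ O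
    obtain ⟨ε, x, hε, hx, hd⟩ := GqY_x p f k hp hf y hy
    have hdf : (f : ℤ) ∣ x - ε := (Int.natCast_dvd_natCast.2 (Nat.dvd_mul_right f p)).trans hd
    have hdp : (p : ℤ) ∣ x - ε := (Int.natCast_dvd_natCast.2 (Nat.dvd_mul_left p f)).trans hd
    have e1 : ε * x - 1 = ε * (x - ε) := by
      have := hεε ε hε
      linear_combination this
    obtain ⟨j, hj⟩ := GqY_j p hp2 (k + 1) (ε * x) (by rw [e1]; exact hdp.mul_left ε)
    have h1 : GqY_A f (γ ^ j) (ε * x) := by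
      refine GqY_cong f hf _ (1 ^ j) _ (GqY_pow f γ 1 hγf j) ?_
      rw [one_pow]
      have : 1 - ε * x = -(ε * (x - ε)) := by rw [← e1]; ring
      rw [this]
      exact (hdf.mul_left ε).neg_right
    have h2 : GqY_A (p ^ (k + 1)) (γ ^ j) (ε * x) :=
      GqY_cong _ (pow_pos hp _) _ _ _ (GqY_pow _ γ _ (hγp (k + 1)) j) hj
    have h3 := GqY_crt f (p ^ (k + 1)) (hcop _) hf (pow_pos hp _) _ _ h1 h2
    have h4 : GqY_A (f * p ^ (k + 1)) (y⁻¹ * γ ^ j) ε := by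
      intro z hz
      have h5 : y (z ^ ε) = (γ ^ j) z := by
        rw [hx _ (GqY_zp _ z hz ε), h3 z hz, ← zpow_mul]
      rw [AlgEquiv.mul_apply, ← h5, ← AlgEquiv.mul_apply, inv_mul_cancel, AlgEquiv.one_apply]
    obtain ⟨t, ht, hO⟩ := hk _ ε hε (GqY_dvd _ _ (Nat.mul_dvd_mul_left f
      (pow_dvd_pow p (Nat.le_succ k))) _ _ h4)
    exact ⟨j, t, ht, hO⟩
  · intro y hy O
    obtain ⟨k, hk⟩ := GqY_main p f hp hf J hJ O
    obtain ⟨ε, x, hε, hx, hd⟩ := GqY_x p f k hp hf y hy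
    have hdf : (f : ℤ) ∣ x - ε := (Int.natCast_dvd_natCast.2 (Nat.dvd_mul_right f p)).trans hd
    have hdp : (p : ℤ) ∣ x - ε := (Int.natCast_dvd_natCast.2 (Nat.dvd_mul_left p f)).trans hd
    have e1 : ε ^ p ^ k = ε := by
      rcases hε with rfl | rfl
      · exact one_pow _
      · exact (hodd.pow).neg_one_pow
    have h1 : (f : ℤ) ∣ x ^ p ^ k - ε := by
      have := hdf.trans (sub_dvd_pow_sub_pow x ε (p ^ k))
      rwa [e1] at this
    have h2 : ((p ^ (k + 1) : ℕ) : ℤ) ∣ x ^ p ^ k - ε := by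
      have := dvd_sub_pow_of_dvd_sub hdp k
      rw [e1] at this
      exact_mod_cast this
    have h3 : ((f * p ^ (k + 1) : ℕ) : ℤ) ∣ x ^ p ^ k - ε := by
      rw [Nat.cast_mul]
      exact (Nat.isCoprime_iff_coprime.2 (hcop (k + 1))).mul_dvd h1 h2
    have h4 := GqY_cong _ (Nat.mul_pos hf (pow_pos hp _)) _ _ ε (GqY_pow _ y x hx (p ^ k)) h3
    obtain ⟨t, ht, hO⟩ := hk _ ε hε (GqY_dvd _ _ (Nat.mul_dvd_mul_left f
      (pow_dvd_pow p (Nat.le_succ k))) _ _ h4)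
    exact ⟨k, t, ht, hO⟩
  · intro m hm hU
    have hA : ∀ n, GqY_A (p ^ n) (γ ^ m) ((1 + p) ^ m) := fun n => GqY_pow _ γ _ (hγp n) m
    rcases hU with hU | hU
    · have h1 : ∀ n : ℕ, ((p ^ n : ℕ) : ℤ) ∣ (1 + (p : ℤ)) ^ m - 1 := fun n =>
        GqY_uni _ (pow_pos hp n) _ _ 1 (hA n) fun z hz => by
          rw [hU z ⟨n, by rw [mul_comm, pow_mul, hz, one_pow]⟩, zpow_one]
      have h2 : (0 : ℤ) < (1 + (p : ℤ)) ^ m - 1 := by
        have h3 : (1 : ℤ) < (1 + (p : ℤ)) ^ m :=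
          one_lt_pow₀ (by have : (0 : ℤ) < p := by exact_mod_cast hp
                          omega) hm.ne'
        omega
      have h3 : ∃ N : ℕ, ((N : ℕ) : ℤ) = (1 + (p : ℤ)) ^ m - 1 := ⟨_, Int.toNat_of_nonneg h2.le⟩
      obtain ⟨N, hN⟩ := h3
      have h4 := h1 N
      rw [← hN, Int.natCast_dvd_natCast] at h4
      have h5 : 0 < N := by omega
      have h6 := Nat.le_of_dvd h5 h4
      have h7 : N < p ^ N := Nat.lt_pow_self hpF.out.one_lt
      omega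
    · have h1 : ((p ^ 1 : ℕ) : ℤ) ∣ (1 + (p : ℤ)) ^ m - -1 :=
        GqY_uni _ (pow_pos hp 1) _ _ (-1) (hA 1) fun z hz => by
          rw [hU z ⟨1, by rw [mul_comm, pow_mul, hz, one_pow]⟩, zpow_neg_one]
      rw [pow_one] at h1
      have h2 : (p : ℤ) ∣ (1 + (p : ℤ)) ^ m - 1 := by
        have := sub_dvd_pow_sub_pow (1 + (p : ℤ)) 1 m
        rwa [one_pow, add_sub_cancel_left] at this
      have h3 : (p : ℤ) ∣ 2 := by
        have := dvd_sub h1 h2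
        have e : (1 + (p : ℤ)) ^ m - -1 - ((1 + (p : ℤ)) ^ m - 1) = 2 := by ring
        rwa [e] at this
      have h4 : p ∣ 2 := by exact_mod_cast h3
      exact hp2 ((Nat.prime_dvd_prime_iff_eq hpF.out Nat.prime_two).1 h4)

end Pool.Agent.FW
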